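import Mathlib

set_option autoImplicit false

/-! Inner and outer functions, the Nevanlinna class, inner factors and boundary spectra. -/

open Complex Metric Set Filter Topology MeasureTheory
open scoped ComplexConjugate Real

namespace Pool.Agent.Q76.IS

/-- An inner function: bounded and holomorphic on the open unit disc, with radial limits of
modulus one at almost every point of the unit circle. -/
structure IsInner (θ : ℂ → ℂ) : Prop where
  diff : DifferentiableOn ℂ θ (ball (0 : ℂ) 1)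
  bdd : ∃ M : ℝ, ∀ z ∈ ball (0 : ℂ) 1, ‖θ z‖ ≤ M
  rad : ∀ᵐ t : ℝ, ∃ c : ℂ, ‖c‖ = 1 ∧
    Tendsto (fun r : ℝ => θ (circleMap 0 r t)) (𝓝[<] 1) (𝓝 c)

/-- The Nevanlinna class of the disc. -/
def Nevanlinna (f : ℂ → ℂ) : Prop :=
  DifferentiableOn ℂ f (ball (0 : ℂ) 1) ∧
    ∃ M : ℝ, ∀ r ∈ Ioo (0 : ℝ) 1, ∫ t in (0 : ℝ)..2 * π, Real.posLog ‖f (circleMap 0 r t)‖ ≤ M

/-- An outer function of the Nevanlinna class: a unimodular constant times the exponential of
the Herglotz integral of an integrable real function on the circle. -/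
def IsOuter (F : ℂ → ℂ) : Prop :=
  ∃ (c : ℂ) (k : ℂ → ℝ), ‖c‖ = 1 ∧ CircleIntegrable k 0 1 ∧ ∀ z ∈ ball (0 : ℂ) 1,
    F z = c * exp (Real.circleAverage (fun ζ => herglotzRieszKernel 0 z ζ • (k ζ : ℂ)) 0 1)

/-- `J` is an inner divisor of `I` (as functions on the disc). -/
def InnerDvd (J I : ℂ → ℂ) : Prop :=
  ∃ K : ℂ → ℂ, IsInner K ∧ ∀ z ∈ ball (0 : ℂ) 1, I z = J z * K z

/-- `I` is the inner factor of `f`: in the canonical factorization `f = (I / S) F` on the disc,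
`I` is inner, `S` is inner without zeros, `I` and `S` have no common inner divisor except
constants, and `F` is outer. -/
def IsInnerFactor (f I : ℂ → ℂ) : Prop :=
  IsInner I ∧ ∃ S F : ℂ → ℂ, IsInner S ∧ (∀ z ∈ ball (0 : ℂ) 1, S z ≠ 0) ∧ IsOuter F ∧
    (∀ z ∈ ball (0 : ℂ) 1, f z = I z / S z * F z) ∧
    ∀ J : ℂ → ℂ, IsInner J → InnerDvd J I → InnerDvd J S →
      ∃ c : ℂ, ∀ z ∈ ball (0 : ℂ) 1, J z = c

/-- `f`, a function on the open unit disc, continues holomorphically to a neighbourhood of `ζ`. -/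
def Extends (f : ℂ → ℂ) (ζ : ℂ) : Prop :=
  ∃ ε : ℝ, 0 < ε ∧ ∃ G : ℂ → ℂ, DifferentiableOn ℂ G (ball ζ ε) ∧
    ∀ z ∈ ball ζ ε ∩ ball (0 : ℂ) 1, G z = f z

/-- The boundary spectrum: the points of the unit circle across which `f` does not continue
holomorphically. -/
def sigma (f : ℂ → ℂ) : Set ℂ := {ζ | ‖ζ‖ = 1 ∧ ¬ Extends f ζ}

end Pool.Agent.Q76.IS
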