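import Pool.Agent.Q76.IS.Ext
import Pool.Agent.Q76.IS.Defs

set_option autoImplicit false

/-! Continuation across a point of the unit circle when the modulus tends to one. -/

open Complex Metric Set Filter Topology MeasureTheory
open scoped ComplexConjugate Real NNReal

namespace Pool.Agent.Q76.IS

lemma den_ne {w : ℂ} (hw : 0 ≤ w.im) : 1 - I * w ≠ 0 := by
  intro h
  have h1 := congrArg Complex.re h
  simp at h1
  linarith

lemma W_sq {w : ℂ} (hw : 0 ≤ w.im) :
    ‖(1 + I * w) / (1 - I * w)‖ ^ 2 = 1 - 4 * w.im / ((1 + w.im) ^ 2 + w.re ^ 2) := by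
  have e1 : ‖1 + I * w‖ ^ 2 = (1 - w.im) ^ 2 + w.re ^ 2 := by
    rw [← Complex.normSq_eq_norm_sq, Complex.normSq_apply]
    simp
    ring
  have e2 : ‖1 - I * w‖ ^ 2 = (1 + w.im) ^ 2 + w.re ^ 2 := by
    rw [← Complex.normSq_eq_norm_sq, Complex.normSq_apply]
    simp
    ring
  rw [norm_div, div_pow, e1, e2]
  have : 0 < (1 + w.im) ^ 2 + w.re ^ 2 := by positivity
  field_simp
  ring

theorem extends_of_unif {θ : ℂ → ℂ} (hθ : DifferentiableOn ℂ θ (ball (0 : ℂ) 1))
    (hm : ∀ z ∈ ball (0 : ℂ) 1, ‖θ z‖ ≤ 1) {ζ : ℂ} (hζ : ‖ζ‖ = 1) {ρ : ℝ} (hρ : 0 < ρ)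
    (hu : ∀ ε : ℝ, 0 < ε → ∃ δ : ℝ, 0 < δ ∧ ∀ z ∈ ball (0 : ℂ) 1, ‖z - ζ‖ < ρ → 1 - δ < ‖z‖ →
      1 - ε ≤ ‖θ z‖) : Extends θ ζ := by
  obtain ⟨δ1, hδ1, h1⟩ := hu (1 / 2) (by norm_num)
  set a : ℝ := min (1 / 2) (min (ρ / 4) (δ1 / 4)) with ha
  have ha0 : 0 < a := lt_min (by norm_num) (lt_min (by positivity) (by positivity))
  have ha1 : a ≤ 1 / 2 := min_le_left _ _
  have ha2 : a ≤ ρ / 4 := (min_le_right _ _).trans (min_le_left _ _)
  have ha3 : a ≤ δ1 / 4 := (min_le_right _ _).trans (min_le_right _ _)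
  set W : ℂ → ℂ := fun w => ζ * ((1 + I * w) / (1 - I * w)) with hW
  have hWn : ∀ w : ℂ, ‖W w‖ = ‖(1 + I * w) / (1 - I * w)‖ := fun w => by
    simp only [hW]; rw [norm_mul, hζ, one_mul]
  have hWlt : ∀ w ∈ UH a, ‖W w‖ < 1 := by
    intro w hw
    have h2 := W_sq (w := w) hw.2.le
    rw [← hWn] at h2
    have h3 : 0 < 4 * w.im / ((1 + w.im) ^ 2 + w.re ^ 2) := by
      have := hw.2
      positivity
    have := norm_nonneg (W w)
    nlinarith
  have hWgt : ∀ w ∈ UH a, 1 - 4 * w.im ≤ ‖W w‖ := by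
    intro w hw
    have h2 := W_sq (w := w) hw.2.le
    rw [← hWn] at h2
    have h3 : 4 * w.im / ((1 + w.im) ^ 2 + w.re ^ 2) ≤ 4 * w.im := by
      apply div_le_self (by linarith [hw.2])
      nlinarith [hw.2, sq_nonneg w.re]
    have h4 := hWlt w hw
    have := norm_nonneg (W w)
    nlinarith
  have hWd : ∀ w ∈ UH a, ‖W w - ζ‖ < ρ := by
    intro w hw
    have h0 := den_ne hw.2.le
    have e : W w - ζ = ζ * (2 * I * w / (1 - I * w)) := by
      simp only [hW]
      field_simp
      ring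
    have h2 : 1 - ‖w‖ ≤ ‖1 - I * w‖ := by
      have := norm_sub_norm_le 1 (I * w)
      rw [norm_one, norm_mul, Complex.norm_I, one_mul] at this
      exact this
    have h3 := hw.1
    have h4 : (1 : ℝ) / 2 < ‖1 - I * w‖ := by linarith
    rw [e, norm_mul, hζ, one_mul, norm_div, norm_mul, norm_mul, Complex.norm_I, Complex.norm_ofNat,
      mul_one, div_lt_iff₀ (by linarith)]
    nlinarith [norm_nonneg w]
  have hWdiff : DifferentiableOn ℂ W (UH a) := by
    intro w hw
    apply DifferentiableAt.differentiableWithinAt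
    have h0 := den_ne hw.2.le
    simp only [hW]
    apply DifferentiableAt.const_mul
    exact DifferentiableAt.fun_div (by fun_prop) (by fun_prop) h0
  obtain ⟨H, hH1, hH2⟩ := ext_half (f := fun w => θ (W w)) ha0
    (hθ.comp hWdiff fun w hw => by simpa using hWlt w hw)
    (fun w hw => by
      have := h1 (W w) (by simpa using hWlt w hw) (hWd w hw) (by
        have h2 := hWgt w hw
        have h3 : w.im < a := lt_of_le_of_lt (Complex.im_le_norm w) hw.1
        have h4 : 4 * w.im < δ1 := by linarith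
        linarith)
      linarith)
    (fun w hw => hm _ (by simpa using hWlt w hw))
    (fun ε hε => by
      obtain ⟨δ, hδ, h2⟩ := hu ε hε
      refine ⟨δ / 4, by positivity, fun w hw hwδ => ?_⟩
      refine h2 (W w) (by simpa using hWlt w hw) (hWd w hw) ?_
      have h3 := hWgt w hw
      linarith)
  set V : ℂ → ℂ := fun z => -I * ((z - ζ) / (z + ζ)) with hV
  have hden : ∀ z ∈ ball ζ a, 1 < ‖z + ζ‖ := by
    intro z hz
    rw [mem_ball, dist_eq_norm] at hz
    have h2 : ‖(2 : ℂ) * ζ‖ = 2 := by rw [norm_mul, hζ, Complex.norm_ofNat, mul_one]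
    have h3 : (2 : ℂ) * ζ = (z + ζ) - (z - ζ) := by ring
    have h4 := norm_sub_le (z + ζ) (z - ζ)
    rw [← h3, h2] at h4
    linarith
  have hVn : ∀ z ∈ ball ζ a, ‖V z‖ < a := by
    intro z hz
    have h2 := hden z hz
    rw [mem_ball, dist_eq_norm] at hz
    simp only [hV]
    rw [norm_mul, norm_neg, Complex.norm_I, one_mul, norm_div, div_lt_iff₀ (by linarith)]
    nlinarith [norm_nonneg (z - ζ)]
  have hVdiff : DifferentiableOn ℂ V (ball ζ a) := by
    intro z hz
    apply DifferentiableAt.differentiableWithinAt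
    have h0 : z + ζ ≠ 0 := by
      intro h
      have := hden z hz
      rw [h, norm_zero] at this
      linarith
    simp only [hV]
    apply DifferentiableAt.const_mul
    exact DifferentiableAt.fun_div (by fun_prop) (by fun_prop) h0
  refine ⟨a, ha0, fun z => H (V z), hH1.comp hVdiff fun z hz => by simpa using hVn z hz, ?_⟩
  rintro z ⟨hz, hz1⟩
  have h0 : z + ζ ≠ 0 := by
    intro h
    have := hden z hz
    rw [h, norm_zero] at this
    linarith
  have hζ0 : ζ ≠ 0 := by
    intro h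
    rw [h, norm_zero] at hζ
    exact zero_ne_one hζ
  have hz1' : ‖z‖ < 1 := by simpa using hz1
  have him : 0 < (V z).im := by
    have e : (V z).im = (1 - ‖z‖ ^ 2) / ‖z + ζ‖ ^ 2 := by
      have e1 : (V z).im = -((z - ζ) / (z + ζ)).re := by
        simp only [hV]
        simp
      have hζ2 : ζ.re ^ 2 + ζ.im ^ 2 = 1 := by
        have := Complex.sq_norm ζ
        rw [hζ, Complex.normSq_apply] at this
        nlinarith
      rw [e1, Complex.div_re, ← Complex.normSq_eq_norm_sq (z + ζ), ← Complex.normSq_eq_norm_sq z,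
        Complex.normSq_apply z, ← add_div, ← neg_div]
      congr 1
      simp
      nlinarith
    rw [e]
    have h2 := hden z hz
    have h3 : 0 < 1 - ‖z‖ ^ 2 := by have := norm_nonneg z; nlinarith
    positivity
  have hmem : V z ∈ UH a := ⟨hVn z hz, him⟩
  show H (V z) = θ z
  rw [hH2 _ hmem]
  have hWV : W (V z) = z := by
    have h5 := den_ne him.le
    simp only [hW, hV]
    have e1 : (1 : ℂ) + I * (-I * ((z - ζ) / (z + ζ))) = 2 * z / (z + ζ) := by
      have : I * (-I * ((z - ζ) / (z + ζ))) = (z - ζ) / (z + ζ) := by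
        linear_combination (-(z - ζ) / (z + ζ)) * Complex.I_mul_I
      rw [this]
      field_simp
      ring
    have e2 : (1 : ℂ) - I * (-I * ((z - ζ) / (z + ζ))) = 2 * ζ / (z + ζ) := by
      have : I * (-I * ((z - ζ) / (z + ζ))) = (z - ζ) / (z + ζ) := by
        linear_combination (-(z - ζ) / (z + ζ)) * Complex.I_mul_I
      rw [this]
      field_simp
      ring
    rw [e1, e2]
    field_simp
  rw [hWV]

end Pool.Agent.Q76.IS
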