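import Pool.Agent.H18R3.Refl
import Pool.Agent.TH609.Z.Prim

set_option autoImplicit false

/-! If the modulus of a holomorphic function on a half disc tends to one at the diameter, then
the function continues holomorphically to the disc. No continuity of the function is assumed. -/

open Complex Metric Set Filter Topology MeasureTheory
open scoped ComplexConjugate Real NNReal

namespace Pool.Agent.Q76.IS

/-- the upper half disc -/
def UH (a : ℝ) : Set ℂ := {w | ‖w‖ < a ∧ 0 < w.im}

lemma UH_open (a : ℝ) : IsOpen (UH a) :=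
  (isOpen_lt continuous_norm continuous_const).inter
    (isOpen_lt continuous_const Complex.continuous_im)

lemma UH_convex (a : ℝ) : Convex ℝ (UH a) := by
  have h1 : Convex ℝ {w : ℂ | ‖w‖ < a} := by
    have := convex_ball (0 : ℂ) a
    simpa [ball, dist_zero_right] using this
  have h2 : Convex ℝ {w : ℂ | 0 < w.im} := convex_halfSpace_im_gt 0
  exact h1.inter h2

lemma prim_half {a : ℝ} (ha : 0 < a) {f : ℂ → ℂ} (hf : DifferentiableOn ℂ f (UH a)) :
    ∃ P : ℂ → ℂ, ∀ w ∈ UH a, HasDerivAt P (f w) w := by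
  set w0 : ℂ := (a / 2 : ℝ) * I with hw0
  have hw0m : w0 ∈ UH a := by
    constructor
    · rw [hw0, norm_mul, Complex.norm_I, mul_one, Complex.norm_real, Real.norm_eq_abs,
        abs_of_pos (by linarith)]
      linarith
    · rw [hw0]
      simpa using ha
  have hS : IsOpen ((fun v : ℂ => v + w0) ⁻¹' UH a) := (UH_open a).preimage (by fun_prop)
  have hc : Convex ℝ ((fun v : ℂ => v + w0) ⁻¹' UH a) :=
    (UH_convex a).translate_preimage_left w0
  obtain ⟨Λ, -, hΛ⟩ := Pool.Agent.TH609.Z.exists_prim_convex (f := fun v => f (v + w0)) hS hc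
    (by simpa using hw0m) (hf.comp (by fun_prop) (fun v hv => hv))
  refine ⟨fun w => Λ (w - w0), fun w hw => ?_⟩
  have h1 := hΛ (w - w0) (by simpa using hw)
  simp only [sub_add_cancel] at h1
  have h2 : HasDerivAt (fun w : ℂ => w - w0) 1 w := (hasDerivAt_id w).sub_const w0
  have h3 := HasDerivAt.comp (h := fun w : ℂ => w - w0) w h1 h2
  rw [mul_one] at h3
  exact h3

/-- primitives with bounded derivative extend to Lipschitz functions -/
lemma prim_lip {a : ℝ} {f P : ℂ → ℂ} {C : ℝ≥0} (hP : ∀ w ∈ UH a, HasDerivAt P (f w) w)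
    (hC : ∀ w ∈ UH a, ‖f w‖ ≤ C) : ∃ Q : ℂ → ℂ, Continuous Q ∧ ∀ w ∈ UH a, Q w = P w := by
  have h1 : LipschitzOnWith C P (UH a) := by
    apply Convex.lipschitzOnWith_of_nnnorm_hasDerivWithin_le (𝕜 := ℂ) (UH_convex a)
      (fun w hw => (hP w hw).hasDerivWithinAt)
    intro w hw
    exact hC w hw
  obtain ⟨Q, hQ1, hQ2⟩ := h1.extend_finite_dimension
  exact ⟨Q, hQ1.continuous, fun w hw => (hQ2 hw).symm⟩

theorem ext_half {f : ℂ → ℂ} {a : ℝ} (ha : 0 < a) (hf : DifferentiableOn ℂ f (UH a))
    (hlo : ∀ w ∈ UH a, 1 / 2 ≤ ‖f w‖) (hup : ∀ w ∈ UH a, ‖f w‖ ≤ 1)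
    (hlim : ∀ ε : ℝ, 0 < ε → ∃ δ : ℝ, 0 < δ ∧ ∀ w ∈ UH a, w.im < δ → 1 - ε ≤ ‖f w‖) :
    ∃ H : ℂ → ℂ, DifferentiableOn ℂ H (ball 0 a) ∧ ∀ w ∈ UH a, H w = f w := by
  classical
  have hne : ∀ w ∈ UH a, f w ≠ 0 := fun w hw h => by
    have := hlo w hw
    rw [h, norm_zero] at this
    linarith
  obtain ⟨P, hP⟩ := prim_half ha hf
  obtain ⟨N, hN⟩ := prim_half ha (f := fun w => (f w)⁻¹) (hf.inv hne)
  obtain ⟨P', hP'c, hP'⟩ := prim_lip (C := 1) hP (by simpa using hup)
  obtain ⟨N', hN'c, hN'⟩ := prim_lip (C := 2) hN (by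
    intro w hw
    rw [norm_inv]
    have h1 := hlo w hw
    have h2 : ‖f w‖⁻¹ ≤ (1 / 2 : ℝ)⁻¹ := inv_anti₀ (by norm_num) h1
    refine h2.trans (le_of_eq ?_)
    norm_num)
  have hP'd : ∀ w ∈ UH a, HasDerivAt P' (f w) w := fun w hw =>
    (hP w hw).congr_of_eventuallyEq (by
      filter_upwards [(UH_open a).mem_nhds hw] with v hv
      exact hP' v hv)
  have hN'd : ∀ w ∈ UH a, HasDerivAt N' (f w)⁻¹ w := fun w hw =>
    (hN w hw).congr_of_eventuallyEq (by
      filter_upwards [(UH_open a).mem_nhds hw] with v hv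
      exact hN' v hv)
  set D : ℂ → ℂ := fun w => P' w - conj (N' w) with hD
  have hDc : Continuous D := hP'c.sub (Complex.continuous_conj.comp hN'c)
  -- the derivative along horizontal lines
  have hline : ∀ (t : ℝ) (s : ℝ), (s : ℂ) + t * I ∈ UH a →
      HasDerivAt (fun s : ℝ => D (s + t * I)) (f (s + t * I) - conj (f (s + t * I))⁻¹) s := by
    intro t s hs
    have e0 : HasDerivAt (fun s : ℝ => (s : ℂ) + t * I) 1 s := by
      simpa using (HasDerivAt.ofReal_comp (hasDerivAt_id s)).add_const ((t : ℂ) * I)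
    have e1 : HasDerivAt (fun s : ℝ => P' (s + t * I)) (f (s + t * I)) s := by
      have := HasDerivAt.comp (𝕜 := ℝ) (𝕜' := ℂ) s (hP'd _ hs) e0
      rwa [mul_one] at this
    have e2 : HasDerivAt (fun s : ℝ => N' (s + t * I)) (f (s + t * I))⁻¹ s := by
      have := HasDerivAt.comp (𝕜 := ℝ) (𝕜' := ℂ) s (hN'd _ hs) e0
      rwa [mul_one] at this
    exact e1.sub e2.star
  have hsmall : ∀ ε : ℝ, 0 < ε → ∃ δ : ℝ, 0 < δ ∧ ∀ w ∈ UH a, w.im < δ →
      ‖f w - conj (f w)⁻¹‖ ≤ ε := by
    intro ε hε
    obtain ⟨δ, hδ, h⟩ := hlim (ε / 4) (by positivity)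
    refine ⟨δ, hδ, fun w hw hwδ => ?_⟩
    have h1 := h w hw hwδ
    have h2 := hup w hw
    have h3 := hlo w hw
    have h4 : f w - conj (f w)⁻¹ = (f w * conj (f w) - 1) / conj (f w) := by
      have : conj (f w) ≠ 0 := (map_ne_zero _).2 (hne w hw)
      rw [map_inv₀]
      field_simp
    rw [h4, norm_div, RCLike.norm_conj, Complex.mul_conj, Complex.normSq_eq_norm_sq,
      div_le_iff₀ (by linarith)]
    have h5 : (((‖f w‖ ^ 2 : ℝ) : ℂ) - 1) = ((‖f w‖ ^ 2 - 1 : ℝ) : ℂ) := by push_cast; ring
    rw [h5, Complex.norm_real, Real.norm_eq_abs, abs_le]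
    constructor <;> nlinarith
  have hconst : ∀ x y : ℝ, |x| < a → |y| < a → D x = D y := by
    intro x y hx hy
    have hmem : ∀ x : ℝ, |x| < a → ∀ᶠ t : ℝ in 𝓝[>] 0, (x : ℂ) + t * I ∈ UH a := by
      intro x hx
      have h1 : ∀ᶠ t : ℝ in 𝓝 (0 : ℝ), ‖(x : ℂ) + t * I‖ < a := by
        have hc : Continuous fun t : ℝ => ‖(x : ℂ) + t * I‖ := by fun_prop
        have h2 := hc.tendsto 0
        simp only [Complex.ofReal_zero, zero_mul, add_zero, Complex.norm_real,
          Real.norm_eq_abs] at h2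
        exact h2.eventually_lt_const hx
      filter_upwards [nhdsWithin_le_nhds h1, self_mem_nhdsWithin] with t ht ht0
      exact ⟨ht, by simpa using ht0⟩
    have hle : ∀ ε : ℝ, 0 < ε → ‖D x - D y‖ ≤ ε * |x - y| := by
      intro ε hε
      obtain ⟨δ, hδ, h⟩ := hsmall ε hε
      have hcx : Tendsto (fun t : ℝ => ‖D (x + t * I) - D (y + t * I)‖) (𝓝[>] 0)
          (𝓝 ‖D x - D y‖) := by
        have hc : Continuous fun t : ℝ => ‖D (x + t * I) - D (y + t * I)‖ := by
          have h1 : Continuous fun t : ℝ => (x : ℂ) + t * I := by fun_prop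
          have h2 : Continuous fun t : ℝ => (y : ℂ) + t * I := by fun_prop
          exact ((hDc.comp h1).sub (hDc.comp h2)).norm
        have h2 := (hc.tendsto 0).mono_left (nhdsWithin_le_nhds (s := Ioi 0))
        simpa using h2
      refine le_of_tendsto hcx ?_
      filter_upwards [hmem x hx, hmem y hy, Ioo_mem_nhdsGT hδ] with t h1 h2 h3
      set K : Set ℝ := {s : ℝ | ‖(s : ℂ) + t * I‖ < a} with hK
      have hKc : Convex ℝ K := by
        intro s1 hs1 s2 hs2 α β hα hβ hαβ
        have h4 := (UH_convex a) (x := (s1 : ℂ) + t * I) (y := (s2 : ℂ) + t * I)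
          ⟨hs1, by simpa using h3.1⟩ ⟨hs2, by simpa using h3.1⟩ hα hβ hαβ
        have h5 := h4.1
        have e : α • ((s1 : ℂ) + t * I) + β • ((s2 : ℂ) + t * I) =
            ((α • s1 + β • s2 : ℝ) : ℂ) + t * I := by
          have hc : (α : ℂ) + β = 1 := by exact_mod_cast hαβ
          simp only [Complex.real_smul, smul_eq_mul]
          push_cast
          linear_combination (t * I) * hc
        rw [e] at h5
        exact h5
      have h6 := hKc.norm_image_sub_le_of_norm_hasDerivWithin_le (C := ε)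
        (f := fun s : ℝ => D (s + t * I)) (f' := fun s : ℝ => f (s + t * I) - conj (f (s + t * I))⁻¹)
        (fun s hs => (hline t s ⟨hs, by simpa using h3.1⟩).hasDerivWithinAt)
        (fun s hs => h _ ⟨hs, by simpa using h3.1⟩ (by simpa using h3.2)) h2.1 h1.1
      simpa using h6
    have h0 : ‖D x - D y‖ ≤ 0 := by
      have hlim0 : Tendsto (fun ε : ℝ => ε * |x - y|) (𝓝[>] 0) (𝓝 0) := by
        have hc : Continuous fun ε : ℝ => ε * |x - y| := by fun_prop
        have h2 := (hc.tendsto 0).mono_left (nhdsWithin_le_nhds (s := Ioi 0))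
        simpa using h2
      refine ge_of_tendsto hlim0 ?_
      filter_upwards [self_mem_nhdsWithin] with ε hε
      exact hle ε hε
    exact sub_eq_zero.1 (norm_le_zero_iff.1 h0)
  -- the glued primitive
  set h : ℂ → ℂ := fun w => if 0 ≤ w.im then P' w else conj (N' (conj w)) + D 0 with hh
  have hupp : ∀ w : ℂ, 0 ≤ w.im → h w = P' w := fun w h0 => by simp [hh, h0]
  have hlow : ∀ w : ℂ, ‖w‖ < a → w.im ≤ 0 → h w = conj (N' (conj w)) + D 0 := by
    intro w hn h0
    rcases h0.lt_or_eq with h1 | h1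
    · simp [hh, not_le.2 h1]
    · have e : conj w = w := Complex.conj_eq_iff_im.2 h1
      rw [hupp w h1.ge, e]
      have hre : w = (w.re : ℂ) := Complex.ext (by simp) (by simp [h1])
      have h2 := hconst w.re 0 (lt_of_le_of_lt (Complex.abs_re_le_norm w) hn) (by simpa using ha)
      rw [← hre, Complex.ofReal_zero] at h2
      rw [← h2]
      simp only [hD]
      ring
  have hcup : ContinuousOn h {w | ‖w‖ < a ∧ 0 ≤ w.im} :=
    hP'c.continuousOn.congr fun w hw => hupp w hw.2
  have hclow : ContinuousOn h {w | ‖w‖ < a ∧ w.im ≤ 0} := by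
    have h1 : Continuous fun w : ℂ => conj (N' (conj w)) + D 0 :=
      (Complex.continuous_conj.comp (hN'c.comp Complex.continuous_conj)).add continuous_const
    exact h1.continuousOn.congr fun w hw => hlow w hw.1 hw.2
  have hhol : DifferentiableOn ℂ h (ball 0 a) := by
    apply Pool.Agent.H18R3.holo_of_continuous
    · have hun : ball (0 : ℂ) a = {w | ‖w‖ < a ∧ 0 ≤ w.im} ∪ {w | ‖w‖ < a ∧ w.im ≤ 0} := by
        ext w
        simp only [mem_ball_zero_iff, mem_union, mem_ofPred_eq]
        constructor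
        · intro h1
          rcases le_total 0 w.im with h2 | h2
          · exact Or.inl ⟨h1, h2⟩
          · exact Or.inr ⟨h1, h2⟩
        · rintro (h1 | h1) <;> exact h1.1
      intro w hw
      have hw' : ‖w‖ < a := by simpa using hw
      rw [hun]
      apply ContinuousWithinAt.union
      · by_cases h0 : 0 ≤ w.im
        · exact hcup w ⟨hw', h0⟩
        · apply continuousWithinAt_of_notMem_closure
          intro hcl
          have hcl2 : IsClosed {w : ℂ | 0 ≤ w.im} := isClosed_le continuous_const Complex.continuous_im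
          have := closure_minimal (fun y (hy : y ∈ {w : ℂ | ‖w‖ < a ∧ 0 ≤ w.im}) => hy.2) hcl2 hcl
          exact h0 this
      · by_cases h0 : w.im ≤ 0
        · exact hclow w ⟨hw', h0⟩
        · apply continuousWithinAt_of_notMem_closure
          intro hcl
          have hcl2 : IsClosed {w : ℂ | w.im ≤ 0} := isClosed_le Complex.continuous_im continuous_const
          have := closure_minimal (fun y (hy : y ∈ {w : ℂ | ‖w‖ < a ∧ w.im ≤ 0}) => hy.2) hcl2 hcl
          exact h0 this
    · rintro w ⟨hw, hne0⟩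
      have hw' : ‖w‖ < a := by simpa using hw
      apply DifferentiableAt.differentiableWithinAt
      have hnb : ∀ᶠ y in 𝓝 w, ‖y‖ < a := by
        filter_upwards [isOpen_ball.mem_nhds hw] with y hy
        simpa using hy
      rcases lt_or_gt_of_ne hne0 with h0 | h0
      · have hdc : DifferentiableAt ℂ N' (conj w) :=
          (hN'd (conj w) ⟨by simpa using hw', by simpa using h0⟩).differentiableAt
        have h1 : DifferentiableAt ℂ (conj ∘ N' ∘ conj) w := by
          have := DifferentiableAt.conj_conj (𝕜 := ℂ) hdc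
          rwa [Complex.conj_conj] at this
        apply (h1.add_const (D 0)).congr_of_eventuallyEq
        filter_upwards [hnb, (isOpen_lt Complex.continuous_im continuous_const).mem_nhds h0]
          with y hy hy2
        exact hlow y hy (le_of_lt hy2)
      · have h1 : DifferentiableAt ℂ P' w := (hP'd w ⟨hw', h0⟩).differentiableAt
        apply h1.congr_of_eventuallyEq
        filter_upwards [(isOpen_lt continuous_const Complex.continuous_im).mem_nhds h0] with y hy
        exact hupp y (le_of_lt hy)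
  refine ⟨deriv h, hhol.deriv isOpen_ball, fun w hw => ?_⟩
  have h1 : HasDerivAt h (f w) w := (hP'd w hw).congr_of_eventuallyEq (by
    filter_upwards [(isOpen_lt continuous_const Complex.continuous_im).mem_nhds hw.2] with y hy
    exact hupp y (le_of_lt hy))
  exact h1.deriv

end Pool.Agent.Q76.IS
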