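import Pool.Agent.Q76.IS.Poi

set_option autoImplicit false

/-! Radial limits of Poisson integrals of integrable functions. -/

open Complex Metric Set Filter Topology MeasureTheory
open scoped ComplexConjugate Real

namespace Pool.Agent.Q76.IS

lemma kb_eq (r x t : ℝ) : ‖circleMap 0 1 t - circleMap 0 r x‖ ^ 2 =
    (1 - r) ^ 2 + 4 * r * Real.sin ((t - x) / 2) ^ 2 := by
  rw [← Complex.normSq_eq_norm_sq, Complex.normSq_apply]
  have h1 : (circleMap 0 1 t - circleMap 0 r x).re = Real.cos t - r * Real.cos x := by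
    simp [circleMap, Complex.exp_ofReal_mul_I_re]
  have h2 : (circleMap 0 1 t - circleMap 0 r x).im = Real.sin t - r * Real.sin x := by
    simp [circleMap, Complex.exp_ofReal_mul_I_im]
  rw [h1, h2]
  have h3 : Real.cos (t - x) = 1 - 2 * Real.sin ((t - x) / 2) ^ 2 := by
    have e : t - x = 2 * ((t - x) / 2) := by ring
    rw [e, Real.cos_two_mul]
    have := Real.sin_sq_add_cos_sq ((t - x) / 2)
    rw [← e]
    linarith
  rw [Real.cos_sub] at h3
  have h4 := Real.sin_sq_add_cos_sq t
  have h5 := Real.sin_sq_add_cos_sq x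
  have h6 : Real.sin ((t - x) / 2) ^ 2 = (1 - (Real.cos t * Real.cos x + Real.sin t * Real.sin x)) / 2 := by
    linarith
  rw [h6]
  linear_combination h4 + r ^ 2 * h5

lemma kb_pk {r : ℝ} (hr : 0 ≤ r) (x t : ℝ) : poissonKernel 0 (circleMap 0 r x) (circleMap 0 1 t) =
    (1 - r ^ 2) / ((1 - r) ^ 2 + 4 * r * Real.sin ((t - x) / 2) ^ 2) := by
  rw [pk_eq, kb_eq, norm_circleMap_zero, abs_of_nonneg hr]

lemma kb_bound {x t r : ℝ} (hr : 1 / 2 ≤ r) (hr1 : r < 1) (hy : |t - x| ≤ π) :
    poissonKernel 0 (circleMap 0 r x) (circleMap 0 1 t) ≤ 2 / (1 - r) ∧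
    (t - x ≠ 0 → poissonKernel 0 (circleMap 0 r x) (circleMap 0 1 t) ≤
      10 * (1 - r) / (t - x) ^ 2) := by
  have hs0 : 0 ≤ Real.sin ((t - x) / 2) ^ 2 := sq_nonneg _
  rw [kb_pk (by linarith)]
  constructor
  · rw [div_le_div_iff₀ (by nlinarith) (by linarith)]
    nlinarith
  · intro hne
    have h0 : 0 < (t - x) ^ 2 := by positivity
    have hsin : (t - x) ^ 2 ≤ 10 * Real.sin ((t - x) / 2) ^ 2 := by
      have h1 : |(t - x) / 2| ≤ π / 2 := by
        rw [abs_div, abs_two]
        linarith
      have h2 := Real.mul_abs_le_abs_sin h1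
      rw [abs_div, abs_two] at h2
      have hpi := Real.pi_pos
      have h3 : 2 / π * (|t - x| / 2) = |t - x| / π := by field_simp
      rw [h3, div_le_iff₀ hpi] at h2
      have h4 : |t - x| ^ 2 ≤ (|Real.sin ((t - x) / 2)| * π) ^ 2 :=
        pow_le_pow_left₀ (abs_nonneg _) h2 2
      rw [sq_abs, mul_pow, sq_abs] at h4
      have h5 : π ^ 2 ≤ 10 := by
        have := Real.pi_lt_d2
        nlinarith
      nlinarith
    rw [div_le_div_iff₀ (by nlinarith) h0]
    have h6 : (1 - r) * ((1 + r) * (t - x) ^ 2) ≤ (1 - r) *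
        (10 * ((1 - r) ^ 2 + 4 * r * Real.sin ((t - x) / 2) ^ 2)) := by
      apply mul_le_mul_of_nonneg_left _ (by linarith)
      nlinarith
    nlinarith

lemma kb_dyadic {x t r : ℝ} (hr : 1 / 2 ≤ r) (hr1 : r < 1) (hy : |t - x| ≤ π) :
    ∃ k : ℕ, |t - x| ≤ 2 ^ k * (1 - r) ∧
      poissonKernel 0 (circleMap 0 r x) (circleMap 0 1 t) ≤ 40 / (4 ^ k * (1 - r)) ∧
      2 ^ k * (1 - r) ≤ 8 := by
  obtain ⟨h1, h2⟩ := kb_bound hr hr1 hy
  have hd : 0 < 1 - r := by linarith
  have hpi4 : π ≤ 4 := Real.pi_le_four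
  have hex : ∃ k : ℕ, |t - x| ≤ 2 ^ k * (1 - r) := by
    obtain ⟨k, hk⟩ := pow_unbounded_of_one_lt (|t - x| / (1 - r)) (one_lt_two)
    refine ⟨k, ?_⟩
    rw [div_lt_iff₀ hd] at hk
    exact hk.le
  classical
  set k := Nat.find hex with hk
  have hk1 : |t - x| ≤ 2 ^ k * (1 - r) := Nat.find_spec hex
  refine ⟨k, hk1, ?_, ?_⟩
  · rcases Nat.eq_zero_or_pos k with h0 | hpos
    · rw [h0, pow_zero, one_mul]
      refine h1.trans ?_
      gcongr
      norm_num
    · have hk2 : ¬ |t - x| ≤ 2 ^ (k - 1) * (1 - r) := Nat.find_min hex (by omega)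
      push Not at hk2
      have hne : t - x ≠ 0 := by
        intro h
        rw [h, abs_zero] at hk2
        have : 0 < (2 : ℝ) ^ (k - 1) * (1 - r) := by positivity
        linarith
      refine (h2 hne).trans ?_
      rw [← sq_abs, div_le_div_iff₀ (by positivity) (by positivity)]
      have h3 : (2 ^ (k - 1) * (1 - r)) ^ 2 ≤ |t - x| ^ 2 := pow_le_pow_left₀ (by positivity) hk2.le 2
      have h4 : (4 : ℝ) ^ k = 4 * (2 ^ (k - 1)) ^ 2 := by
        obtain ⟨m, hm⟩ := Nat.exists_eq_succ_of_ne_zero hpos.ne'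
        rw [hm, Nat.succ_eq_add_one, Nat.add_sub_cancel, pow_succ, ← pow_mul, mul_comm m 2, pow_mul]
        norm_num
        ring
      rw [h4]
      nlinarith
  · rcases Nat.eq_zero_or_pos k with h0 | hpos
    · rw [h0, pow_zero, one_mul]; linarith
    · have hk2 : ¬ |t - x| ≤ 2 ^ (k - 1) * (1 - r) := Nat.find_min hex (by omega)
      push Not at hk2
      have h4 : (2 : ℝ) ^ k = 2 * 2 ^ (k - 1) := by
        obtain ⟨m, hm⟩ := Nat.exists_eq_succ_of_ne_zero hpos.ne'
        rw [hm, Nat.succ_eq_add_one, Nat.add_sub_cancel, pow_succ]; ring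
      rw [h4]
      nlinarith

/-- the near part -/
lemma near_part {g : ℝ → ℝ} (hg0 : ∀ t, 0 ≤ g t) (hg : LocallyIntegrable g volume) {x r η ε : ℝ}
    (hr : 1 / 2 ≤ r) (hr1 : r < 1) (hη : 0 < η) (hηπ : η ≤ π) (hε : 0 ≤ ε)
    (hA : ∀ ρ : ℝ, 0 < ρ → ρ ≤ η → ∫ t in closedBall x ρ, g t ≤ ε * ρ) :
    ∫ t in closedBall x η, poissonKernel 0 (circleMap 0 r x) (circleMap 0 1 t) * g t ≤ 80 * ε := by
  have hd : 0 < 1 - r := by linarith
  have hz : ‖circleMap 0 r x‖ < 1 := by
    rw [norm_circleMap_zero, abs_of_nonneg (by linarith)]; exact hr1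
  have hint : ∀ s : ℝ, IntegrableOn g (closedBall x s) volume := fun s =>
    hg.integrableOn_isCompact (isCompact_closedBall x s)
  obtain ⟨K, hK⟩ : ∃ K : ℕ, 8 < 2 ^ K * (1 - r) := by
    obtain ⟨K, hK⟩ := pow_unbounded_of_one_lt (8 / (1 - r)) (one_lt_two)
    refine ⟨K, ?_⟩
    rwa [div_lt_iff₀ hd] at hK
  have hminor : ∀ ρ : ℝ, 0 < ρ → ∫ t in closedBall x η, (closedBall x ρ).indicator g t ≤ ε * ρ := by
    intro ρ hρ
    rw [setIntegral_indicator measurableSet_closedBall]
    rcases le_total ρ η with h | h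
    · rw [inter_eq_self_of_subset_right (closedBall_subset_closedBall h)]
      exact hA ρ hρ h
    · rw [inter_eq_self_of_subset_left (closedBall_subset_closedBall h)]
      exact (hA η hη le_rfl).trans (mul_le_mul_of_nonneg_left h hε)
  calc ∫ t in closedBall x η, poissonKernel 0 (circleMap 0 r x) (circleMap 0 1 t) * g t
      ≤ ∫ t in closedBall x η, ∑ k ∈ Finset.range K,
          (40 / (4 ^ k * (1 - r))) * (closedBall x (2 ^ k * (1 - r))).indicator g t := by
        refine setIntegral_mono_on ?_ ?_ measurableSet_closedBall ?_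
        · exact (hint η).continuousOn_mul (pk_cont hz).continuousOn (isCompact_closedBall x η)
        · refine integrable_finsetSum _ fun k _ => ?_
          exact ((hint η).indicator measurableSet_closedBall).const_mul _
        · intro t ht
          have hy2 : |t - x| ≤ π := by
            rw [mem_closedBall, Real.dist_eq] at ht
            exact ht.trans hηπ
          obtain ⟨k, hk1, hk2, hk3⟩ := kb_dyadic hr hr1 hy2
          have hkK : k ∈ Finset.range K := by
            rw [Finset.mem_range]
            by_contra hcon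
            push Not at hcon
            have : (2 : ℝ) ^ K ≤ 2 ^ k := pow_le_pow_right₀ (by norm_num) hcon
            nlinarith
          refine le_trans ?_ (Finset.single_le_sum (f := fun k : ℕ => (40 / (4 ^ k * (1 - r))) *
            (closedBall x (2 ^ k * (1 - r))).indicator g t) ?_ hkK)
          · rw [indicator_of_mem (by rw [mem_closedBall, Real.dist_eq]; exact hk1)]
            exact mul_le_mul_of_nonneg_right hk2 (hg0 t)
          · intro i _
            exact mul_nonneg (by positivity) (indicator_nonneg (fun y _ => hg0 y) t)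
    _ = ∑ k ∈ Finset.range K, (40 / (4 ^ k * (1 - r))) *
          ∫ t in closedBall x η, (closedBall x (2 ^ k * (1 - r))).indicator g t := by
        rw [integral_finsetSum]
        · refine Finset.sum_congr rfl fun k _ => ?_
          rw [integral_const_mul]
        · intro k _
          exact ((hint η).indicator measurableSet_closedBall).const_mul _
    _ ≤ ∑ k ∈ Finset.range K, (40 * ε) * (1 / 2) ^ k := by
        refine Finset.sum_le_sum fun k _ => ?_
        refine (mul_le_mul_of_nonneg_left (hminor (2 ^ k * (1 - r)) (by positivity))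
          (by positivity)).trans (le_of_eq ?_)
        have h8 : (4 : ℝ) ^ k = 2 ^ k * 2 ^ k := by
          rw [← mul_pow]; norm_num
        rw [h8]
        have h9 : (2 : ℝ) ^ k ≠ 0 := by positivity
        have h10 : (1 : ℝ) - r ≠ 0 := hd.ne'
        rw [one_div, inv_pow]
        field_simp
    _ ≤ 40 * ε * 2 := by
        rw [← Finset.mul_sum]
        apply mul_le_mul_of_nonneg_left _ (by positivity)
        have := (summable_geometric_two).sum_le_tsum (Finset.range K) (fun i _ => by positivity)
        rwa [tsum_geometric_two] at this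
    _ = 80 * ε := by ring

lemma circ_per (k : ℂ → ℝ) : Function.Periodic (fun t : ℝ => k (circleMap 0 1 t)) (2 * π) := by
  intro t
  simp only
  rw [(periodic_circleMap 0 1) t]

lemma circ_loc {k : ℂ → ℝ} (hk : CircleIntegrable k 0 1) :
    LocallyIntegrable (fun t : ℝ => k (circleMap 0 1 t)) volume := by
  have h : ∀ a b : ℝ, IntervalIntegrable (fun t : ℝ => k (circleMap 0 1 t)) volume a b := by
    intro a b
    exact (circ_per k).intervalIntegrable₀ (by positivity) hk a b
  intro y
  refine ⟨Icc (y - 1) (y + 1), Icc_mem_nhds (by linarith) (by linarith), ?_⟩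
  have := h (y - 1) (y + 1)
  rwa [intervalIntegrable_iff_integrableOn_Icc_of_le (by linarith)] at this

/-- Radial limits at Lebesgue points -/
lemma fat_point {k : ℂ → ℝ} (hk : CircleIntegrable k 0 1) {x : ℝ}
    (hx : Tendsto (fun ρ : ℝ => ⨍ y in closedBall x ρ, ‖k (circleMap 0 1 y) - k (circleMap 0 1 x)‖)
      (𝓝[>] 0) (𝓝 0)) :
    Tendsto (fun r : ℝ => (2 * π)⁻¹ * ∫ t in (0 : ℝ)..2 * π,
      poissonKernel 0 (circleMap 0 r x) (circleMap 0 1 t) * k (circleMap 0 1 t)) (𝓝[<] 1)
      (𝓝 (k (circleMap 0 1 x))) := by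
  set κ : ℝ → ℝ := fun t => k (circleMap 0 1 t) with hκ
  have hloc : LocallyIntegrable κ volume := circ_loc hk
  set g : ℝ → ℝ := fun t => |κ t - κ x| with hg
  have hg0 : ∀ t, 0 ≤ g t := fun t => abs_nonneg _
  have hgl : LocallyIntegrable g volume := by
    intro y
    exact IntegrableAtFilter.norm ((hloc.sub (locallyIntegrable_const (κ x))) y)
  have hint : ∀ s : ℝ, IntegrableOn g (closedBall x s) volume := fun s =>
    hgl.integrableOn_isCompact (isCompact_closedBall x s)
  have hpi := Real.pi_pos
  set G : ℝ := ∫ t in closedBall x π, g t with hG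
  have hG0 : 0 ≤ G := integral_nonneg hg0
  rw [Metric.tendsto_nhds]
  intro ε hε
  -- the scale
  obtain ⟨η, hη, hηπ, hA⟩ : ∃ η : ℝ, 0 < η ∧ η ≤ π ∧ ∀ ρ : ℝ, 0 < ρ → ρ ≤ η →
      ∫ t in closedBall x ρ, g t ≤ (ε / 80) * ρ := by
    rw [Metric.tendsto_nhds] at hx
    have h1 := hx (ε / 160) (by positivity)
    rw [eventually_nhdsWithin_iff, Metric.eventually_nhds_iff] at h1
    obtain ⟨η, hη, h2⟩ := h1
    refine ⟨min (η / 2) π, lt_min (by positivity) hpi, min_le_right _ _, fun ρ hρ hρη => ?_⟩
    have h3 : ρ < η := by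
      have := hρη.trans (min_le_left _ _)
      linarith
    have h4 := h2 (show dist ρ 0 < η by rw [Real.dist_eq, sub_zero, abs_of_pos hρ]; exact h3) hρ
    rw [Real.dist_eq, sub_zero] at h4
    have h5 := (le_abs_self _).trans h4.le
    rw [setAverage_eq, smul_eq_mul, measureReal_def, Real.volume_closedBall,
      ENNReal.toReal_ofReal (by linarith), inv_mul_le_iff₀ (by linarith)] at h5
    refine (le_of_eq ?_).trans (h5.trans (le_of_eq ?_))
    · rfl
    · ring
  -- the far part is small
  have hfar : ∀ᶠ r : ℝ in 𝓝[<] 1, 10 * (1 - r) / η ^ 2 * G < ε := by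
    have h1 : Tendsto (fun r : ℝ => 10 * (1 - r) / η ^ 2 * G) (𝓝[<] 1) (𝓝 0) := by
      have : Continuous fun r : ℝ => 10 * (1 - r) / η ^ 2 * G := by fun_prop
      have h2 := (this.tendsto 1).mono_left (nhdsWithin_le_nhds (s := Iio 1))
      simpa using h2
    exact h1.eventually_lt_const hε
  have hhalf : ∀ᶠ r : ℝ in 𝓝[<] 1, r ∈ Ico (1 / 2 : ℝ) 1 := Ico_mem_nhdsLT (by norm_num)
  filter_upwards [hfar, hhalf] with r hr1 hr2
  have hz : ‖circleMap 0 r x‖ < 1 := by
    rw [norm_circleMap_zero, abs_of_nonneg (by linarith [hr2.1])]; exact hr2.2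
  set P : ℝ → ℝ := fun t => poissonKernel 0 (circleMap 0 r x) (circleMap 0 1 t) with hP
  have hPc : Continuous P := pk_cont hz
  have hP0 : ∀ t, 0 < P t := fun t => pk_pos hz t
  have hPper : Function.Periodic P (2 * π) := by
    intro t
    simp only [hP]
    rw [(periodic_circleMap 0 1) t]
  have hκint : ∀ a b : ℝ, IntervalIntegrable κ volume a b := fun a b =>
    (circ_per k).intervalIntegrable₀ (by positivity) hk a b
  have hd1 : (2 * π)⁻¹ * (∫ t in (0 : ℝ)..2 * π, P t * κ t) - κ x =
      (2 * π)⁻¹ * ∫ t in (0 : ℝ)..2 * π, P t * (κ t - κ x) := by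
    have e1 : ∫ t in (0 : ℝ)..2 * π, P t * (κ t - κ x) =
        (∫ t in (0 : ℝ)..2 * π, P t * κ t) - ∫ t in (0 : ℝ)..2 * π, P t * κ x := by
      rw [← intervalIntegral.integral_sub]
      · apply intervalIntegral.integral_congr
        intro t _
        ring
      · exact (hκint 0 (2 * π)).continuousOn_mul hPc.continuousOn
      · exact (hPc.mul continuous_const).intervalIntegrable _ _
    rw [e1, intervalIntegral.integral_mul_const, pk_int hz]
    field_simp
  have hd2 : |∫ t in (0 : ℝ)..2 * π, P t * (κ t - κ x)| ≤ ∫ t in (0 : ℝ)..2 * π, P t * g t := by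
    have := intervalIntegral.norm_integral_le_integral_norm (f := fun t => P t * (κ t - κ x))
      (μ := volume) (show (0 : ℝ) ≤ 2 * π by positivity)
    refine this.trans (le_of_eq ?_)
    apply intervalIntegral.integral_congr
    intro t _
    simp only [norm_mul, Real.norm_eq_abs, abs_of_pos (hP0 t), hg]
  have hd3 : ∫ t in (0 : ℝ)..2 * π, P t * g t = ∫ t in closedBall x π, P t * g t := by
    have hper : Function.Periodic (fun t => P t * g t) (2 * π) := by
      intro t
      simp only [hg]
      rw [hPper t, show κ (t + 2 * π) = κ t from circ_per k t]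
    have h1 := hper.intervalIntegral_add_eq 0 (x - π)
    rw [zero_add, show x - π + 2 * π = x + π by ring] at h1
    rw [h1, intervalIntegral.integral_of_le (by linarith), Real.closedBall_eq_Icc,
      integral_Icc_eq_integral_Ioc]
  have hPg : IntegrableOn (fun t => P t * g t) (closedBall x π) :=
    (hint π).continuousOn_mul hPc.continuousOn (isCompact_closedBall x π)
  have hd4 : ∫ t in closedBall x π, P t * g t = (∫ t in closedBall x η, P t * g t) +
      ∫ t in closedBall x π \ closedBall x η, P t * g t := by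
    have h1 := setIntegral_union (μ := volume) (f := fun t => P t * g t)
      (s := closedBall x η) (t := closedBall x π \ closedBall x η) disjoint_sdiff_right
      (measurableSet_closedBall.diff measurableSet_closedBall)
      (hPg.mono_set (closedBall_subset_closedBall hηπ)) (hPg.mono_set sdiff_subset)
    rw [union_sdiff_cancel (closedBall_subset_closedBall hηπ)] at h1
    exact h1
  have hnear : ∫ t in closedBall x η, P t * g t ≤ 80 * (ε / 80) :=
    near_part hg0 hgl hr2.1 hr2.2 hη hηπ (by positivity) hA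
  have hfar2 : ∫ t in closedBall x π \ closedBall x η, P t * g t ≤ 10 * (1 - r) / η ^ 2 * G := by
    have hd : 0 < 1 - r := by linarith [hr2.2]
    calc ∫ t in closedBall x π \ closedBall x η, P t * g t
        ≤ ∫ t in closedBall x π \ closedBall x η, (10 * (1 - r) / η ^ 2) * g t := by
          refine setIntegral_mono_on (hPg.mono_set sdiff_subset)
            (((hint π).mono_set sdiff_subset).const_mul _)
            (measurableSet_closedBall.diff measurableSet_closedBall) ?_
          intro t ht
          have h1 : |t - x| ≤ π := by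
            have := ht.1
            rwa [mem_closedBall, Real.dist_eq] at this
          have h2 : η < |t - x| := by
            have := ht.2
            rwa [mem_closedBall, Real.dist_eq, not_le] at this
          have hne : t - x ≠ 0 := by
            intro h
            rw [h, abs_zero] at h2
            linarith
          apply mul_le_mul_of_nonneg_right _ (hg0 t)
          refine ((kb_bound hr2.1 hr2.2 h1).2 hne).trans ?_
          apply div_le_div_of_nonneg_left (by positivity) (by positivity)
          rw [← sq_abs (t - x)]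
          exact pow_le_pow_left₀ hη.le h2.le 2
      _ = (10 * (1 - r) / η ^ 2) * ∫ t in closedBall x π \ closedBall x η, g t := by
          rw [integral_const_mul]
      _ ≤ (10 * (1 - r) / η ^ 2) * G := by
          apply mul_le_mul_of_nonneg_left _ (by positivity)
          exact setIntegral_mono_set (hint π) (Eventually.of_forall hg0)
            (Eventually.of_forall fun t ht => (ht : t ∈ closedBall x π \ closedBall x η).1)
  rw [Real.dist_eq, hd1, abs_mul, abs_of_pos (by positivity : (0:ℝ) < (2 * π)⁻¹),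
    inv_mul_lt_iff₀ (by positivity)]
  have h3 : (3 : ℝ) < π := Real.pi_gt_three
  have h7 : |∫ t in (0 : ℝ)..2 * π, P t * (κ t - κ x)| ≤ 80 * (ε / 80) + 10 * (1 - r) / η ^ 2 * G := by
    rw [hd3, hd4] at hd2
    linarith
  nlinarith

/-- Fatou's theorem for Poisson integrals of integrable functions -/
theorem fatou_L1 {k : ℂ → ℝ} (hk : CircleIntegrable k 0 1) :
    ∀ᵐ x : ℝ, Tendsto (fun r : ℝ => (2 * π)⁻¹ * ∫ t in (0 : ℝ)..2 * π,
      poissonKernel 0 (circleMap 0 r x) (circleMap 0 1 t) * k (circleMap 0 1 t)) (𝓝[<] 1)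
      (𝓝 (k (circleMap 0 1 x))) := by
  have hL := IsUnifLocDoublingMeasure.ae_tendsto_average_norm_sub (volume : Measure ℝ)
    (circ_loc hk) 1
  filter_upwards [hL] with x hx
  apply fat_point hk
  refine hx (fun _ => x) (fun ρ : ℝ => ρ) tendsto_id ?_
  filter_upwards [self_mem_nhdsWithin] with ρ hρ
  rw [mem_closedBall, dist_self, one_mul]
  exact le_of_lt hρ

end Pool.Agent.Q76.IS
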