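import Pool.Agent.Q76.IS.Hyp

set_option autoImplicit false

/-! If the hyperbolic derivative is close to one near an arc then the modulus tends to one there. -/

open Complex Metric Set Filter Topology
open scoped ComplexConjugate

namespace Pool.Agent.Q76.IS

/-- the point of the radius of `ζ` with `(1 + r) / (1 - r) = q` -/
noncomputable def zq (ζ : ℂ) (q : ℝ) : ℂ := (((q - 1) / (q + 1) : ℝ) : ℂ) * ζ

lemma zq_norm {ζ : ℂ} (hζ : ‖ζ‖ = 1) {q : ℝ} (hq : 1 ≤ q) : ‖zq ζ q‖ = (q - 1) / (q + 1) := by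
  unfold zq
  rw [norm_mul, hζ, mul_one, Complex.norm_real, Real.norm_eq_abs, abs_of_nonneg]
  exact div_nonneg (by linarith) (by linarith)

lemma zq_lt {ζ : ℂ} (hζ : ‖ζ‖ = 1) {q : ℝ} (hq : 1 ≤ q) : ‖zq ζ q‖ < 1 := by
  rw [zq_norm hζ hq, div_lt_one (by linarith)]
  linarith

lemma conj_zq {ζ : ℂ} (hζ : ‖ζ‖ = 1) (q : ℝ) : conj (zq ζ q) * ζ = (((q - 1) / (q + 1) : ℝ) : ℂ) := by
  unfold zq
  rw [map_mul, Complex.conj_ofReal, mul_assoc, mul_comm (conj ζ) ζ, Complex.mul_conj,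
    Complex.normSq_eq_norm_sq, hζ]
  simp

lemma zq_up {ζ : ℂ} (hζ : ‖ζ‖ = 1) {q : ℝ} (hq : 1 ≤ q) :
    (ζ / 2 + zq ζ q) / (1 + conj (zq ζ q) * (ζ / 2)) = zq ζ (3 * q) := by
  rw [← mul_div_assoc, conj_zq hζ]
  unfold zq
  have h1 : ((q : ℂ) + 1) ≠ 0 := by exact_mod_cast (by linarith : q + 1 ≠ 0)
  have h2 : ((3 : ℂ) * q + 1) ≠ 0 := by exact_mod_cast (by linarith : 3 * q + 1 ≠ 0)
  have h3 : (1 : ℂ) + (q - 1) / (q + 1) / 2 ≠ 0 := by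
    have : (1 : ℂ) + (q - 1) / (q + 1) / 2 = (3 * q + 1) / (2 * (q + 1)) := by
      field_simp; ring
    rw [this]
    exact div_ne_zero h2 (mul_ne_zero two_ne_zero h1)
  push_cast
  rw [div_eq_iff h3]
  have e1 : ζ / 2 + ((q : ℂ) - 1) / (q + 1) * ζ = (3 * q - 1) / (2 * (q + 1)) * ζ := by
    field_simp
    ring
  have e2 : (1 : ℂ) + (q - 1) / (q + 1) / 2 = (3 * q + 1) / (2 * (q + 1)) := by
    field_simp
    ring
  rw [e1, e2]
  have h5 : (2 * ((q : ℂ) + 1)) ≠ 0 := mul_ne_zero two_ne_zero h1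
  generalize (3 * (q : ℂ) + 1) = a at *
  generalize (2 * ((q : ℂ) + 1)) = b at *
  field_simp

lemma zq_down {ζ : ℂ} (hζ : ‖ζ‖ = 1) {q : ℝ} (hq : 1 ≤ q) :
    (-(ζ / 2) + zq ζ q) / (1 + conj (zq ζ q) * (-(ζ / 2))) = zq ζ (q / 3) := by
  rw [mul_neg, ← mul_div_assoc, conj_zq hζ]
  unfold zq
  have h1 : ((q : ℂ) + 1) ≠ 0 := by exact_mod_cast (by linarith : q + 1 ≠ 0)
  have h2 : ((q : ℂ) + 3) ≠ 0 := by exact_mod_cast (by linarith : q + 3 ≠ 0)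
  have h3 : (1 : ℂ) + -((q - 1) / (q + 1) / 2) ≠ 0 := by
    have : (1 : ℂ) + -((q - 1) / (q + 1) / 2) = (q + 3) / (2 * (q + 1)) := by
      field_simp; ring
    rw [this]
    exact div_ne_zero h2 (mul_ne_zero two_ne_zero h1)
  have h4 : (q : ℂ) / 3 + 1 ≠ 0 := by
    have : (q : ℂ) / 3 + 1 = (q + 3) / 3 := by field_simp
    rw [this]
    exact div_ne_zero h2 (by norm_num)
  push_cast
  rw [div_eq_iff h3]
  field_simp
  ring

lemma seq_grow {c : ℕ → ℝ} {M : ℝ} (h1 : ∀ n, 1 ≤ c n) (h0 : c 0 ≤ M)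
    (h : ∀ n, 12 / 5 * c (n + 1) ≤ c (n + 2) + c n) (n : ℕ) :
    (n : ℝ) * (n - 1) / 5 - n * M ≤ c n := by
  have hd : ∀ n : ℕ, -M + 2 / 5 * (n : ℝ) ≤ c (n + 1) - c n := by
    intro n
    induction n with
    | zero => simp; linarith [h1 1]
    | succ n ih =>
      have := h n
      have := h1 (n + 1)
      push_cast
      linarith
  induction n with
  | zero => simp; linarith [h1 0]
  | succ n ih =>
    have := hd n
    push_cast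
    linarith

theorem grow {θ : ℂ → ℂ} (hθ : DifferentiableOn ℂ θ (ball (0 : ℂ) 1))
    (hm : MapsTo θ (ball (0 : ℂ) 1) (ball (0 : ℂ) 1)) {Q : ℝ} (hQ : 1 ≤ Q) {A : Set ℂ}
    (hA : ∀ ζ ∈ A, ‖ζ‖ = 1)
    (hD : ∀ ζ ∈ A, ∀ q : ℝ, Q ≤ q → (1 - 1 / 50) * (1 - ‖θ (zq ζ q)‖ ^ 2) ≤
      ‖deriv θ (zq ζ q)‖ * (1 - ‖zq ζ q‖ ^ 2)) (B : ℝ) :
    ∃ Q' : ℝ, 1 ≤ Q' ∧ ∀ ζ ∈ A, ∀ q : ℝ, Q' ≤ q → B ≤ cc (θ (zq ζ q)) := by
  have hmn : ∀ x : ℂ, ‖x‖ < 1 → ‖θ x‖ < 1 := fun x hx => by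
    simpa using hm (by simpa using hx)
  set ρ : ℝ := (3 * Q - 1) / (3 * Q + 1) with hρ
  have hρ1 : ρ < 1 := by rw [hρ, div_lt_one (by linarith)]; linarith
  obtain ⟨M, hM⟩ : ∃ M : ℝ, ∀ z ∈ closedBall (0:ℂ) ρ, cc (θ z) ≤ M := by
    have hc : ContinuousOn (fun z => cc (θ z)) (closedBall (0:ℂ) ρ) := by
      unfold cc
      apply ContinuousOn.inv₀
      · have : ContinuousOn θ (closedBall (0:ℂ) ρ) :=
          hθ.continuousOn.mono (closedBall_subset_ball hρ1)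
        fun_prop
      · intro z hz
        have h1 : ‖z‖ < 1 := lt_of_le_of_lt (by simpa using hz) hρ1
        have h2 := hmn z h1
        have := norm_nonneg (θ z)
        nlinarith
    obtain ⟨M, hM⟩ := (isCompact_closedBall (0:ℂ) ρ).bddAbove_image hc
    exact ⟨M, fun z hz => hM (mem_image_of_mem _ hz)⟩
  obtain ⟨N, hN⟩ := exists_nat_ge (5 * (|M| + |B| + 1) + 1)
  refine ⟨3 ^ (N + 1) * Q, ?_, ?_⟩
  · have : (1:ℝ) ≤ 3 ^ (N + 1) := one_le_pow₀ (by norm_num)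
    nlinarith
  intro ζ hζ q hq
  have hζ1 := hA ζ hζ
  have hQ0 : 0 < Q := by linarith
  have h3N : (3:ℝ) ^ (N + 1) ≤ q / Q := by rwa [le_div_iff₀ hQ0]
  have h3N1 : (1:ℝ) ≤ 3 ^ (N + 1) := one_le_pow₀ (by norm_num)
  obtain ⟨n, hn1, hn2⟩ := exists_nat_pow_near (h3N1.trans h3N) (by norm_num : (1:ℝ) < 3)
  have hNn : N ≤ n := by
    have : (3:ℝ) ^ (N + 1) < 3 ^ (n + 1) := lt_of_le_of_lt h3N hn2
    have := (pow_lt_pow_iff_right₀ (by norm_num : (1:ℝ) < 3)).1 this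
    omega
  have h3n : (0:ℝ) < 3 ^ n := by positivity
  set q0 : ℝ := q / 3 ^ n with hq0
  have hqQ : Q ≤ q0 := by
    rw [hq0, le_div_iff₀ h3n]
    rw [le_div_iff₀ hQ0] at hn1
    linarith
  have hqQ3 : q0 ≤ 3 * Q := by
    rw [hq0, div_le_iff₀ h3n]
    rw [div_lt_iff₀ hQ0, pow_succ] at hn2
    nlinarith
  have hqk : ∀ k : ℕ, Q ≤ 3 ^ k * q0 := by
    intro k
    have : (1:ℝ) ≤ 3 ^ k := one_le_pow₀ (by norm_num)
    nlinarith
  have hstep : ∀ k : ℕ, 12 / 5 * cc (θ (zq ζ (3 ^ (k + 1) * q0))) ≤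
      cc (θ (zq ζ (3 ^ (k + 2) * q0))) + cc (θ (zq ζ (3 ^ k * q0))) := by
    intro k
    have hk := hqk (k + 1)
    have hk1 : 1 ≤ 3 ^ (k + 1) * q0 := hQ.trans hk
    have hη : ‖ζ / 2‖ = 1 / 2 := by rw [norm_div, hζ1]; norm_num
    have := three hθ hm (zq_lt hζ1 hk1) hη (hD ζ hζ _ hk)
    rw [zq_up hζ1 hk1, zq_down hζ1 hk1] at this
    have e1 : 3 * (3 ^ (k + 1) * q0) = 3 ^ (k + 2) * q0 := by ring
    have e2 : 3 ^ (k + 1) * q0 / 3 = 3 ^ k * q0 := by ring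
    rw [e1, e2] at this
    exact this
  have hone : ∀ k : ℕ, 1 ≤ cc (θ (zq ζ (3 ^ k * q0))) := fun k =>
    cc_one_le (hmn _ (zq_lt hζ1 (hQ.trans (hqk k))))
  have hstart : cc (θ (zq ζ (3 ^ 0 * q0))) ≤ M := by
    apply hM
    rw [mem_closedBall_zero_iff, zq_norm hζ1 (hQ.trans (hqk 0)), pow_zero, one_mul, hρ,
      div_le_div_iff₀ (by linarith) (by linarith)]
    nlinarith
  have key := seq_grow (c := fun k => cc (θ (zq ζ (3 ^ k * q0)))) hone hstart hstep n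
  have e : 3 ^ n * q0 = q := by rw [hq0]; field_simp
  rw [e] at key
  refine le_trans ?_ key
  have hnN : (5 * (|M| + |B| + 1) + 1 : ℝ) ≤ n := hN.trans (by exact_mod_cast hNn)
  have hMa := le_abs_self M
  have hBa := le_abs_self B
  have hB0 := abs_nonneg B
  have hM0 := abs_nonneg M
  have h5 : |B| + 1 ≤ ((n : ℝ) - 1) / 5 - M := by linarith
  have h6 : (n:ℝ) * (n - 1) / 5 - n * M = n * (((n : ℝ) - 1) / 5 - M) := by ring
  rw [h6]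
  have h7 : (1:ℝ) ≤ n := by linarith
  calc B ≤ 1 * (|B| + 1) := by linarith
    _ ≤ n * (((n : ℝ) - 1) / 5 - M) := mul_le_mul h7 h5 (by linarith) (by linarith)

end Pool.Agent.Q76.IS
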