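import Pool.Agent.Helper203.NSBase

set_option autoImplicit false

/-! The three point inequality for self-maps of the disc whose hyperbolic derivative is close to one. -/

open Complex Metric Set Filter Topology
open scoped ComplexConjugate

namespace Pool.Agent.Q76.IS

open Pool.Agent.Helper203.NS

lemma one_sub_ne' {a b : ℂ} (ha : ‖a‖ < 1) (hb : ‖b‖ ≤ 1) : 1 - conj a * b ≠ 0 := by
  intro h
  have h1 : conj a * b = 1 := (sub_eq_zero.mp h).symm
  have h2 : ‖conj a * b‖ < 1 := by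
    rw [norm_mul, RCLike.norm_conj]
    calc ‖a‖ * ‖b‖ ≤ ‖a‖ * 1 := by gcongr
      _ < 1 := by linarith
  rw [h1] at h2
  simp at h2

/-- Schwarz-Pick at the origin, values in the closed disc -/
lemma sp0 {h : ℂ → ℂ} (hd : DifferentiableOn ℂ h (ball 0 1)) (hb : ∀ z ∈ ball (0:ℂ) 1, ‖h z‖ ≤ 1)
    {w : ℂ} (hw : ‖w‖ < 1) : ‖h w - h 0‖ ≤ ‖w‖ * ‖1 - conj (h 0) * h w‖ := by
  have hwb : w ∈ ball (0:ℂ) 1 := by simpa using hw
  by_cases h0 : ‖h 0‖ = 1
  · have hm : IsMaxOn (norm ∘ h) (ball 0 1) 0 := fun z hz => by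
      show ‖h z‖ ≤ ‖h 0‖; rw [h0]; exact hb z hz
    have := Complex.eqOn_of_isPreconnected_of_isMaxOn_norm (convex_ball (0:ℂ) 1).isPreconnected
      isOpen_ball hd (by simp) hm
    have e : h w = h 0 := this hwb
    rw [e, sub_self, norm_zero]
    positivity
  · have h01 : ‖h 0‖ < 1 := lt_of_le_of_ne (hb 0 (by simp)) h0
    have hne : ∀ u ∈ ball (0:ℂ) 1, 1 - conj (h 0) * h u ≠ 0 := fun u hu => one_sub_ne' h01 (hb u hu)
    have hfd : DifferentiableOn ℂ (fun u => (h u - h 0) / (1 - conj (h 0) * h u)) (ball (0 : ℂ) 1) := by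
      apply DifferentiableOn.div
      · exact hd.sub_const _
      · exact (hd.const_mul _).const_sub _
      · exact hne
    have hfm : MapsTo (fun u => (h u - h 0) / (1 - conj (h 0) * h u)) (ball (0 : ℂ) 1)
        (closedBall (0 : ℂ) 1) := by
      intro u hu
      rw [mem_closedBall_zero_iff, norm_div, div_le_one (norm_pos_iff.2 (hne u hu))]
      have h1 := mob_id (h 0) (h u)
      have h2 := hb u hu
      have h3 : 0 ≤ (1 - ‖h 0‖ ^ 2) * (1 - ‖h u‖ ^ 2) := by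
        have := norm_nonneg (h 0)
        have := norm_nonneg (h u)
        apply mul_nonneg <;> nlinarith
      exact le_of_sq_le_sq (by linarith) (norm_nonneg _)
    have key := norm_le_norm_of_mapsTo_ball hfd hfm (by simp) hw
    rw [norm_div, div_le_iff₀ (norm_pos_iff.2 (hne w hwb))] at key
    exact key

/-- oscillation -/
lemma osc {h : ℂ → ℂ} (hd : DifferentiableOn ℂ h (ball 0 1)) (hb : ∀ z ∈ ball (0:ℂ) 1, ‖h z‖ ≤ 1)
    {ε : ℝ} (h0 : 1 - ε ≤ ‖h 0‖) {w : ℂ} (hw : ‖w‖ = 1 / 2) : ‖h w - h 0‖ ≤ 2 * ε := by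
  have h1 := sp0 hd hb (w := w) (by rw [hw]; norm_num)
  have hb0 := hb 0 (by simp)
  have h2 : ‖1 - conj (h 0) * h w‖ ≤ 2 * ε + ‖h w - h 0‖ := by
    have e : 1 - conj (h 0) * h w = ((1 - ‖h 0‖ ^ 2 : ℝ) : ℂ) - conj (h 0) * (h w - h 0) := by
      have : conj (h 0) * h 0 = ((‖h 0‖ ^ 2 : ℝ) : ℂ) := by
        rw [mul_comm, Complex.mul_conj, Complex.normSq_eq_norm_sq]
      rw [mul_sub, this]; push_cast; ring
    rw [e]
    refine (norm_sub_le _ _).trans ?_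
    rw [norm_mul, RCLike.norm_conj, Complex.norm_real, Real.norm_eq_abs, abs_of_nonneg (by nlinarith [norm_nonneg (h 0)])]
    have h3 : 1 - ‖h 0‖ ^ 2 ≤ 2 * ε := by nlinarith [norm_nonneg (h 0)]
    have h4 : ‖h 0‖ * ‖h w - h 0‖ ≤ 1 * ‖h w - h 0‖ := mul_le_mul_of_nonneg_right hb0 (norm_nonneg _)
    linarith
  rw [hw] at h1
  linarith

/-- `1 / (1 - |v|²)` -/
noncomputable def cc (v : ℂ) : ℝ := (1 - ‖v‖ ^ 2)⁻¹

lemma cc_one_le {v : ℂ} (hv : ‖v‖ < 1) : 1 ≤ cc v := by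
  unfold cc
  have := norm_nonneg v
  have h : 0 < 1 - ‖v‖ ^ 2 := by nlinarith
  rw [one_le_inv₀ h]
  nlinarith

lemma cc_id {a v : ℂ} (ha : ‖a‖ < 1) (hv : ‖v‖ < 1) :
    cc v = cc a * ‖1 + conj a * ((v - a) / (1 - conj a * v))‖ ^ 2 /
      (1 - ‖(v - a) / (1 - conj a * v)‖ ^ 2) := by
  have hne : 1 - conj a * v ≠ 0 := one_sub_ne ha hv
  have hpos : 0 < ‖1 - conj a * v‖ := norm_pos_iff.2 hne
  have hna := norm_nonneg a
  have hnv := norm_nonneg v
  have h1a : 0 < 1 - ‖a‖ ^ 2 := by nlinarith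
  have h1v : 0 < 1 - ‖v‖ ^ 2 := by nlinarith
  have e1 : 1 + conj a * ((v - a) / (1 - conj a * v)) = ((1 - ‖a‖ ^ 2 : ℝ) : ℂ) / (1 - conj a * v) := by
    have : conj a * a = ((‖a‖ ^ 2 : ℝ) : ℂ) := by
      rw [mul_comm, Complex.mul_conj, Complex.normSq_eq_norm_sq]
    rw [eq_div_iff hne, add_mul, one_mul, mul_assoc, div_mul_cancel₀ _ hne, mul_sub, this]
    push_cast; ring
  have e2 : ‖1 + conj a * ((v - a) / (1 - conj a * v))‖ ^ 2 = (1 - ‖a‖ ^ 2) ^ 2 / ‖1 - conj a * v‖ ^ 2 := by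
    rw [e1, norm_div, div_pow, Complex.norm_real, Real.norm_eq_abs, abs_of_pos h1a]
  have e3 : 1 - ‖(v - a) / (1 - conj a * v)‖ ^ 2 = (1 - ‖a‖ ^ 2) * (1 - ‖v‖ ^ 2) / ‖1 - conj a * v‖ ^ 2 := by
    rw [norm_div, div_pow, eq_div_iff (by positivity), sub_mul, one_mul, div_mul_cancel₀ _ (by positivity),
      mob_id]
  rw [e2, e3]
  unfold cc
  field_simp

/-- The three point inequality. -/
theorem three {θ : ℂ → ℂ} (hθ : DifferentiableOn ℂ θ (ball (0 : ℂ) 1))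
    (hm : MapsTo θ (ball (0 : ℂ) 1) (ball (0 : ℂ) 1)) {z η : ℂ} (hz : ‖z‖ < 1) (hη : ‖η‖ = 1 / 2)
    (hD : (1 - 1 / 50) * (1 - ‖θ z‖ ^ 2) ≤ ‖deriv θ z‖ * (1 - ‖z‖ ^ 2)) :
    12 / 5 * cc (θ z) ≤ cc (θ ((η + z) / (1 + conj z * η))) + cc (θ ((-η + z) / (1 + conj z * (-η)))) := by
  have hmn : ∀ x : ℂ, ‖x‖ < 1 → ‖θ x‖ < 1 := fun x hx => by
    simpa using hm (by simpa using hx)
  set a := θ z with ha
  have ha1 : ‖a‖ < 1 := hmn z hz
  have hz' : ‖-z‖ < 1 := by simpa using hz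
  set φ : ℂ → ℂ := fun w => (w + z) / (1 + conj z * w) with hφ
  have hφe : ∀ w, φ w = (w - (-z)) / (1 - conj (-z) * w) := fun w => by simp [hφ]
  have hφ1 : ∀ w : ℂ, ‖w‖ < 1 → ‖φ w‖ < 1 := fun w hw => by rw [hφe]; exact mob_lt hz' hw
  have hφd : DifferentiableOn ℂ φ (ball (0 : ℂ) 1) := by
    intro w hw
    have hw' : ‖w‖ < 1 := by simpa using hw
    apply DifferentiableAt.differentiableWithinAt
    apply DifferentiableAt.div
    · fun_prop
    · fun_prop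
    · have := one_sub_ne hz' hw'
      simpa using this
  set g : ℂ → ℂ := fun w => (θ (φ w) - a) / (1 - conj a * θ (φ w)) with hg
  have hgd : DifferentiableOn ℂ g (ball (0 : ℂ) 1) := by
    have hc : DifferentiableOn ℂ (fun w => θ (φ w)) (ball (0 : ℂ) 1) :=
      hθ.comp hφd (fun w hw => by simpa using hφ1 w (by simpa using hw))
    apply DifferentiableOn.div
    · exact hc.sub_const _
    · exact (hc.const_mul _).const_sub _
    · intro w hw
      exact one_sub_ne ha1 (hmn _ (hφ1 w (by simpa using hw)))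
  have hφ0 : φ 0 = z := by simp [hφ]
  have hg0 : g 0 = 0 := by simp [hg, hφ0, ha]
  have hg1 : ∀ w : ℂ, ‖w‖ < 1 → ‖g w‖ < 1 := fun w hw => mob_lt ha1 (hmn _ (hφ1 w hw))
  have hgm : MapsTo g (ball (0 : ℂ) 1) (ball (g 0) 1) := by
    intro w hw
    rw [hg0]
    simpa using hg1 w (by simpa using hw)
  set h : ℂ → ℂ := dslope g 0 with hh
  have hhd : DifferentiableOn ℂ h (ball 0 1) :=
    (Complex.differentiableOn_dslope (ball_mem_nhds 0 one_pos)).2 hgd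
  have hhb : ∀ w ∈ ball (0:ℂ) 1, ‖h w‖ ≤ 1 := by
    intro w hw
    have := Complex.norm_dslope_le_div_of_mapsTo_ball hgd (hgm.mono_right ball_subset_closedBall) hw
    simpa using this
  have hgh : ∀ w, g w = w * h w := by
    intro w
    have := sub_smul_dslope g 0 w
    rw [hg0, sub_zero, sub_zero, smul_eq_mul] at this
    exact this.symm
  -- the derivative at zero
  have h1z : 0 < 1 - ‖z‖ ^ 2 := by nlinarith [norm_nonneg z]
  have h1a : 0 < 1 - ‖a‖ ^ 2 := by nlinarith [norm_nonneg a]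
  have hder : HasDerivAt g ((((1 - ‖a‖ ^ 2 : ℝ) : ℂ))⁻¹ * (deriv θ z * ((1 - ‖z‖ ^ 2 : ℝ) : ℂ))) 0 := by
    have d1 : HasDerivAt φ (((1 - ‖z‖ ^ 2 : ℝ) : ℂ)) 0 := by
      have q1 : HasDerivAt (fun w : ℂ => w + z) 1 0 := (hasDerivAt_id _).add_const z
      have q2 : HasDerivAt (fun w : ℂ => 1 + conj z * w) (conj z) 0 := by
        simpa using ((hasDerivAt_id (0:ℂ)).const_mul (conj z)).const_add 1
      have q3 : HasDerivAt φ _ 0 := q1.div q2 (by simp)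
      refine q3.congr_deriv ?_
      have : z * conj z = ((‖z‖ ^ 2 : ℝ) : ℂ) := by
        rw [Complex.mul_conj, Complex.normSq_eq_norm_sq]
      rw [mul_zero, add_zero, zero_add, one_mul, one_pow, div_one, this]; push_cast; ring
    have d2 : HasDerivAt θ (deriv θ z) (φ 0) := by
      rw [hφ0]
      exact (hθ.differentiableAt (isOpen_ball.mem_nhds (by simpa using hz))).hasDerivAt
    have d3 := d2.comp (0:ℂ) d1
    have d4 : HasDerivAt (fun w => θ (φ w) - a) (deriv θ z * ((1 - ‖z‖ ^ 2 : ℝ) : ℂ)) 0 :=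
      d3.sub_const a
    have d5 : HasDerivAt (fun w => 1 - conj a * θ (φ w))
        (-(conj a * (deriv θ z * ((1 - ‖z‖ ^ 2 : ℝ) : ℂ)))) 0 := by
      simpa using (d3.const_mul (conj a)).const_sub 1
    have hne : 1 - conj a * θ (φ 0) ≠ 0 := by rw [hφ0]; exact one_sub_ne ha1 (hmn z hz)
    have d6 : HasDerivAt g _ 0 := d4.div d5 hne
    refine d6.congr_deriv ?_
    rw [hφ0, ← ha, sub_self, zero_mul, sub_zero]
    have : conj a * a = ((‖a‖ ^ 2 : ℝ) : ℂ) := by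
      rw [mul_comm, Complex.mul_conj, Complex.normSq_eq_norm_sq]
    rw [this]
    have e : (1 : ℂ) - ((‖a‖ ^ 2 : ℝ) : ℂ) = ((1 - ‖a‖ ^ 2 : ℝ) : ℂ) := by push_cast; ring
    rw [e]
    have hn : ((1 - ‖a‖ ^ 2 : ℝ) : ℂ) ≠ 0 := by exact_mod_cast h1a.ne'
    field_simp
  have hh0 : 1 - 1 / 50 ≤ ‖h 0‖ := by
    rw [hh, dslope_same, hder.deriv, norm_mul, norm_mul, norm_inv, Complex.norm_real, Complex.norm_real,
      Real.norm_eq_abs, Real.norm_eq_abs, abs_of_pos h1a, abs_of_pos h1z, inv_mul_eq_div, le_div_iff₀ h1a]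
    exact hD
  have hη' : ‖-η‖ = 1 / 2 := by rw [norm_neg, hη]
  have o1 := osc hhd hhb hh0 hη
  have o2 := osc hhd hhb hh0 hη'
  have hη1 : ‖η‖ < 1 := by rw [hη]; norm_num
  have hη1' : ‖-η‖ < 1 := by rw [hη']; norm_num
  have n1 : 47 / 100 ≤ ‖g η‖ := by
    rw [hgh, norm_mul, hη]
    have : ‖h 0‖ ≤ ‖h η‖ + ‖h η - h 0‖ := by
      have := norm_sub_le (h η) (h η - h 0)
      rwa [sub_sub_cancel] at this
    linarith
  have n2 : 47 / 100 ≤ ‖g (-η)‖ := by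
    rw [hgh, norm_mul, hη']
    have : ‖h 0‖ ≤ ‖h (-η)‖ + ‖h (-η) - h 0‖ := by
      have := norm_sub_le (h (-η)) (h (-η) - h 0)
      rwa [sub_sub_cancel] at this
    linarith
  have s1 : ‖g η + g (-η)‖ ≤ 1 / 25 := by
    have e : g η + g (-η) = η * ((h η - h 0) - (h (-η) - h 0)) := by rw [hgh, hgh]; ring
    rw [e, norm_mul, hη]
    have := norm_sub_le (h η - h 0) (h (-η) - h 0)
    linarith
  have q : ∀ x : ℂ, 1 + 2 * x.re ≤ ‖1 + x‖ ^ 2 := by
    intro x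
    rw [← Complex.normSq_eq_norm_sq, Complex.normSq_apply]
    simp
    nlinarith [sq_nonneg x.re, sq_nonneg x.im]
  have s2 : 2 - 2 * (1 / 25) ≤ ‖1 + conj a * g η‖ ^ 2 + ‖1 + conj a * g (-η)‖ ^ 2 := by
    have r1 := q (conj a * g η)
    have r2 := q (conj a * g (-η))
    have r3 : -(1 / 25) ≤ (conj a * g η).re + (conj a * g (-η)).re := by
      rw [← Complex.add_re, ← mul_add]
      have t1 := Complex.abs_re_le_norm (conj a * (g η + g (-η)))
      have t2 : ‖conj a * (g η + g (-η))‖ ≤ 1 / 25 := by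
        rw [norm_mul, RCLike.norm_conj]
        calc ‖a‖ * ‖g η + g (-η)‖ ≤ 1 * (1 / 25) := by gcongr
          _ = 1 / 25 := one_mul _
      have := abs_le.1 (t1.trans t2)
      exact this.1
    linarith
  have c1 := cc_id ha1 (hmn _ (hφ1 η hη1))
  have c2 := cc_id ha1 (hmn _ (hφ1 (-η) hη1'))
  have hca : 0 < cc a := by linarith [cc_one_le ha1]
  have hg1n := hg1 η hη1
  have hg2n := hg1 (-η) hη1'
  have f1 : cc a * ‖1 + conj a * g η‖ ^ 2 / (7791 / 10000) ≤ cc (θ (φ η)) := by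
    rw [c1]
    apply div_le_div_of_nonneg_left (by positivity)
    · show 0 < 1 - ‖g η‖ ^ 2
      nlinarith [norm_nonneg (g η)]
    · show 1 - ‖g η‖ ^ 2 ≤ _
      nlinarith
  have f2 : cc a * ‖1 + conj a * g (-η)‖ ^ 2 / (7791 / 10000) ≤ cc (θ (φ (-η))) := by
    rw [c2]
    apply div_le_div_of_nonneg_left (by positivity)
    · show 0 < 1 - ‖g (-η)‖ ^ 2
      nlinarith [norm_nonneg (g (-η))]
    · show 1 - ‖g (-η)‖ ^ 2 ≤ _
      nlinarith
  show 12 / 5 * cc a ≤ cc (θ (φ η)) + cc (θ (φ (-η)))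
  have f3 : 12 / 5 * cc a ≤ cc a * (‖1 + conj a * g η‖ ^ 2 + ‖1 + conj a * g (-η)‖ ^ 2) / (7791 / 10000) := by
    rw [le_div_iff₀ (by norm_num)]
    nlinarith
  calc 12 / 5 * cc a ≤ _ := f3
    _ = cc a * ‖1 + conj a * g η‖ ^ 2 / (7791 / 10000) + cc a * ‖1 + conj a * g (-η)‖ ^ 2 / (7791 / 10000) := by
      ring
    _ ≤ _ := add_le_add f1 f2

end Pool.Agent.Q76.IS
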