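import Pool.Agent.Q76.IS.Defs
import Pool.Agent.Q76.IS.Fat
import Pool.Agent.Q76.IS.Grow

set_option autoImplicit false

/-! The inequality between the inner factor of the derivative and the hyperbolic derivative. -/

open Complex Metric Set Filter Topology MeasureTheory
open scoped ComplexConjugate Real

namespace Pool.Agent.Q76.IS

open Pool.Agent.Helper203.NS

/-- a bound for the derivative on a radius bounds the distance to the radial limit -/
lemma rad_dist {θ : ℂ → ℂ} (hθ : DifferentiableOn ℂ θ (ball (0 : ℂ) 1)) {x : ℝ} {c : ℂ}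
    (hc : Tendsto (fun r : ℝ => θ (circleMap 0 r x)) (𝓝[<] 1) (𝓝 c)) {L : ℝ}
    (hL : ∀ᶠ r : ℝ in 𝓝[<] 1, ‖deriv θ (circleMap 0 r x)‖ ≤ L) :
    ∀ᶠ r : ℝ in 𝓝[<] 1, ‖c - θ (circleMap 0 r x)‖ ≤ L * (1 - r) := by
  have h0 : ∀ᶠ r : ℝ in 𝓝[<] (1 : ℝ), r ∈ Ioo (0 : ℝ) 1 := Ioo_mem_nhdsLT one_pos
  obtain ⟨r0, hr0, hr0'⟩ : ∃ r0 : ℝ, r0 < 1 ∧ ∀ r ∈ Ioo r0 1, (0 < r ∧ r < 1) ∧
      ‖deriv θ (circleMap 0 r x)‖ ≤ L := by
    have := h0.and hL
    rw [eventually_iff, mem_nhdsLT_iff_exists_Ioo_subset] at this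
    obtain ⟨r0, h1, h2⟩ := this
    exact ⟨r0, h1, fun r hr => h2 hr⟩
  have hmem : ∀ r ∈ Ioo r0 1, circleMap 0 r x ∈ ball (0 : ℂ) 1 := by
    intro r hr
    rw [mem_ball_zero_iff, norm_circleMap_zero, abs_of_pos (hr0' r hr).1.1]
    exact hr.2
  have hder : ∀ r ∈ Ioo r0 1, HasDerivWithinAt (fun s : ℝ => θ (circleMap 0 s x))
      (deriv θ (circleMap 0 r x) * exp (x * I)) (Ioo r0 1) r := by
    intro r hr
    have h1 : HasDerivAt θ (deriv θ (circleMap 0 r x)) (circleMap 0 r x) :=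
      (hθ.differentiableAt (isOpen_ball.mem_nhds (hmem r hr))).hasDerivAt
    have h2 : HasDerivAt (fun s : ℝ => circleMap 0 s x) (exp (x * I)) r := by
      have h3 : HasDerivAt (fun s : ℝ => (s : ℂ) * exp (x * I)) (1 * exp (x * I)) r :=
        (HasDerivAt.ofReal_comp (hasDerivAt_id r)).mul_const _
      rw [one_mul] at h3
      refine h3.congr_of_eventuallyEq (Eventually.of_forall fun s => ?_)
      simp [circleMap]
    exact (HasDerivAt.comp (𝕜 := ℝ) (𝕜' := ℂ) r h1 h2).hasDerivWithinAt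
  filter_upwards [Ioo_mem_nhdsLT hr0] with r hr
  have hlim : Tendsto (fun s : ℝ => ‖θ (circleMap 0 s x) - θ (circleMap 0 r x)‖) (𝓝[<] 1)
      (𝓝 ‖c - θ (circleMap 0 r x)‖) := (hc.sub_const _).norm
  have hlim2 : Tendsto (fun s : ℝ => L * |s - r|) (𝓝[<] 1) (𝓝 (L * (1 - r))) := by
    have h1 : Continuous fun s : ℝ => L * |s - r| := by fun_prop
    have h2 := (h1.tendsto 1).mono_left (nhdsWithin_le_nhds (s := Iio 1))
    rwa [abs_of_pos (by linarith [hr.2] : (0 : ℝ) < 1 - r)] at h2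
  refine le_of_tendsto_of_tendsto hlim hlim2 ?_
  filter_upwards [Ioo_mem_nhdsLT hr0] with s hs
  have h4 := (convex_Ioo r0 1).norm_image_sub_le_of_norm_hasDerivWithin_le (C := L) hder
    (fun y hy => by
      rw [norm_mul, Complex.norm_exp_ofReal_mul_I, mul_one]
      exact (hr0' y hy).2) hr hs
  simpa using h4

/-- the inequality at a boundary point -/
lemma bdry_ineq {θ : ℂ → ℂ} (hθ : DifferentiableOn ℂ θ (ball (0 : ℂ) 1))
    (hm : MapsTo θ (ball (0 : ℂ) 1) (ball (0 : ℂ) 1)) {x : ℝ} {c : ℂ} (hc1 : ‖c‖ = 1)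
    (hc : Tendsto (fun r : ℝ => θ (circleMap 0 r x)) (𝓝[<] 1) (𝓝 c)) {L : ℝ}
    (hL : ∀ᶠ r : ℝ in 𝓝[<] 1, ‖deriv θ (circleMap 0 r x)‖ ≤ L) {z : ℂ} (hz : ‖z‖ < 1) :
    (1 - ‖z‖ ^ 2) * ‖1 - conj (θ z) * c‖ ^ 2 ≤
      (1 - ‖θ z‖ ^ 2) * (L * ‖1 - conj z * circleMap 0 1 x‖ ^ 2) := by
  have hmn : ∀ x : ℂ, ‖x‖ < 1 → ‖θ x‖ < 1 := fun x hx => by
    simpa using hm (by simpa using hx)
  have ha := hmn z hz
  have h0 : ∀ᶠ r : ℝ in 𝓝[<] (1 : ℝ), r ∈ Ioo (0 : ℝ) 1 := Ioo_mem_nhdsLT one_pos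
  have hcm : Tendsto (fun r : ℝ => circleMap 0 r x) (𝓝[<] 1) (𝓝 (circleMap 0 1 x)) := by
    have : Continuous fun R : ℝ => circleMap 0 R x := by unfold circleMap; fun_prop
    exact (this.tendsto 1).mono_left nhdsWithin_le_nhds
  have hid : Tendsto (fun r : ℝ => 1 + r) (𝓝[<] 1) (𝓝 (1 + 1)) :=
    ((continuous_const.add continuous_id).tendsto 1).mono_left nhdsWithin_le_nhds
  have l1 : Tendsto (fun r : ℝ => (1 - ‖z‖ ^ 2) * ((1 + r) * ‖1 - conj (θ z) * θ (circleMap 0 r x)‖ ^ 2))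
      (𝓝[<] 1) (𝓝 ((1 - ‖z‖ ^ 2) * ((1 + 1) * ‖1 - conj (θ z) * c‖ ^ 2))) :=
    (hid.mul ((tendsto_const_nhds.sub (hc.const_mul _)).norm.pow 2)).const_mul _
  have l2 : Tendsto (fun r : ℝ => (1 - ‖θ z‖ ^ 2) * ((2 * L) * ‖1 - conj z * circleMap 0 r x‖ ^ 2))
      (𝓝[<] 1) (𝓝 ((1 - ‖θ z‖ ^ 2) * ((2 * L) * ‖1 - conj z * circleMap 0 1 x‖ ^ 2))) :=
    (((tendsto_const_nhds.sub (hcm.const_mul _)).norm.pow 2).const_mul _).const_mul _
  have key : (1 - ‖z‖ ^ 2) * ((1 + 1) * ‖1 - conj (θ z) * c‖ ^ 2) ≤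
      (1 - ‖θ z‖ ^ 2) * ((2 * L) * ‖1 - conj z * circleMap 0 1 x‖ ^ 2) := by
    refine le_of_tendsto_of_tendsto l1 l2 ?_
    filter_upwards [h0, rad_dist hθ hc hL] with r hr hr2
    set w := circleMap 0 r x with hw
    have hwn : ‖w‖ = r := by rw [hw, norm_circleMap_zero, abs_of_pos hr.1]
    have hw1 : ‖w‖ < 1 := by rw [hwn]; exact hr.2
    have hb := hmn w hw1
    have hsp := schwarz_pick hθ hm hw1 hz
    have hsq : (‖θ w - θ z‖ * ‖1 - conj z * w‖) ^ 2 ≤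
        (‖w - z‖ * ‖1 - conj (θ z) * θ w‖) ^ 2 := pow_le_pow_left₀ (by positivity) hsp 2
    have m1 := mob_id (θ z) (θ w)
    have m2 := mob_id z w
    rw [mul_pow, mul_pow] at hsq
    rw [hwn] at m2
    set X := ‖1 - conj (θ z) * θ w‖ ^ 2
    set Y := ‖1 - conj z * w‖ ^ 2 with hY
    have hY0 : 0 ≤ Y := by positivity
    have e1 : ‖θ w - θ z‖ ^ 2 = X - (1 - ‖θ z‖ ^ 2) * (1 - ‖θ w‖ ^ 2) := by linarith
    have e2 : ‖w - z‖ ^ 2 = Y - (1 - ‖z‖ ^ 2) * (1 - r ^ 2) := by linarith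
    rw [e1, e2] at hsq
    have h3 : (1 - ‖z‖ ^ 2) * (1 - r ^ 2) * X ≤ (1 - ‖θ z‖ ^ 2) * (1 - ‖θ w‖ ^ 2) * Y := by
      nlinarith
    have h4 : 1 - ‖θ w‖ ^ 2 ≤ 2 * (L * (1 - r)) := by
      have h5 : 1 - ‖θ w‖ ≤ ‖c - θ w‖ := by
        have := norm_sub_norm_le c (θ w)
        rwa [hc1] at this
      have := norm_nonneg (θ w)
      nlinarith
    have hA : 0 ≤ 1 - ‖θ z‖ ^ 2 := by have := norm_nonneg (θ z); nlinarith
    have h6 : (1 - ‖θ z‖ ^ 2) * (1 - ‖θ w‖ ^ 2) * Y ≤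
        (1 - ‖θ z‖ ^ 2) * (2 * (L * (1 - r))) * Y :=
      mul_le_mul_of_nonneg_right (mul_le_mul_of_nonneg_left h4 hA) hY0
    have hd : 0 < 1 - r := by linarith [hr.2]
    have h7 : (1 - r) * ((1 - ‖z‖ ^ 2) * ((1 + r) * X)) ≤
        (1 - r) * ((1 - ‖θ z‖ ^ 2) * ((2 * L) * Y)) := by nlinarith
    exact le_of_mul_le_mul_left h7 hd
  linarith

lemma lim_meas {f : ℂ → ℂ} (hf : DifferentiableOn ℂ f (ball 0 1)) {c : ℝ → ℂ}
    (hc : ∀ᵐ t : ℝ, Tendsto (fun r : ℝ => f (circleMap 0 r t)) (𝓝[<] 1) (𝓝 (c t))) :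
    AEStronglyMeasurable c volume := by
  have hr : Tendsto (fun n : ℕ => 1 - 1 / ((n : ℝ) + 1 + 1)) atTop (𝓝[<] 1) := by
    rw [tendsto_nhdsWithin_iff]
    constructor
    · have h1 : Tendsto (fun n : ℕ => 1 / ((n : ℝ) + 1 + 1)) atTop (𝓝 0) := by
        have := (tendsto_add_atTop_iff_nat 1).2 (tendsto_one_div_add_atTop_nhds_zero_nat (𝕜 := ℝ))
        simpa using this
      simpa using h1.const_sub 1
    · refine Eventually.of_forall fun n => ?_
      have : (0 : ℝ) < 1 / ((n : ℝ) + 1 + 1) := by positivity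
      simp only [mem_Iio]
      linarith
  refine aestronglyMeasurable_of_tendsto_ae atTop
    (f := fun (n : ℕ) (t : ℝ) => f (circleMap 0 (1 - 1 / ((n : ℝ) + 1 + 1)) t)) ?_ ?_
  · intro n
    apply Continuous.aestronglyMeasurable
    apply hf.continuousOn.comp_continuous (continuous_circleMap 0 _)
    intro t
    have h1 : (0 : ℝ) < 1 / ((n : ℝ) + 1 + 1) := by positivity
    have h2 : 1 / ((n : ℝ) + 1 + 1) ≤ 1 := by
      rw [div_le_one (by positivity)]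
      have := Nat.cast_nonneg (α := ℝ) n
      linarith
    rw [mem_ball_zero_iff, norm_circleMap_zero, abs_of_nonneg (by linarith)]
    linarith
  · filter_upwards [hc] with t ht
    exact ht.comp hr

lemma lim_bd {f : ℂ → ℂ} {M : ℝ} (hM : ∀ z ∈ ball (0 : ℂ) 1, ‖f z‖ ≤ M) {t : ℝ} {c : ℂ}
    (hc : Tendsto (fun r : ℝ => f (circleMap 0 r t)) (𝓝[<] 1) (𝓝 c)) : ‖c‖ ≤ M := by
  refine le_of_tendsto hc.norm ?_
  filter_upwards [Ioo_mem_nhdsLT (a := (0 : ℝ)) one_pos] with r hr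
  apply hM
  rw [mem_ball_zero_iff, norm_circleMap_zero, abs_of_pos hr.1]
  exact hr.2

lemma pk_smul_int {f : ℂ → ℂ} (hf : DifferentiableOn ℂ f (ball 0 1)) {M : ℝ}
    (hM : ∀ z ∈ ball (0 : ℂ) 1, ‖f z‖ ≤ M) {c : ℝ → ℂ}
    (hc : ∀ᵐ t : ℝ, Tendsto (fun r : ℝ => f (circleMap 0 r t)) (𝓝[<] 1) (𝓝 (c t)))
    {z : ℂ} (hz : ‖z‖ < 1) :
    IntervalIntegrable (fun t : ℝ => poissonKernel 0 z (circleMap 0 1 t) • c t) volume 0 (2 * π) := by
  have h1 : IntervalIntegrable c volume 0 (2 * π) := by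
    rw [intervalIntegrable_iff]
    refine Measure.integrableOn_of_bounded (M := M)
      (by rw [uIoc_of_le (by positivity)]; exact measure_Ioc_lt_top.ne) (lim_meas hf hc) ?_
    exact ae_restrict_of_ae (hc.mono fun t ht => lim_bd hM ht)
  exact h1.continuousOn_smul (pk_cont hz).continuousOn

lemma re_pos {a b : ℂ} (hb : ‖b‖ ≤ 1) : 1 - ‖a‖ ≤ (1 - conj a * b).re := by
  have h1 : (conj a * b).re ≤ ‖conj a * b‖ := Complex.re_le_norm _
  rw [norm_mul, RCLike.norm_conj] at h1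
  have h2 : ‖a‖ * ‖b‖ ≤ ‖a‖ * 1 := by gcongr
  rw [Complex.sub_re, Complex.one_re]
  linarith

lemma slit {a b : ℂ} (ha : ‖a‖ < 1) (hb : ‖b‖ ≤ 1) : 1 - conj a * b ∈ slitPlane := by
  left
  have := re_pos (a := a) hb
  linarith

lemma log_bd {a b : ℂ} (ha : ‖a‖ < 1) (hb : ‖b‖ ≤ 1) :
    ‖log (1 - conj a * b)‖ ≤ |Real.log (1 - ‖a‖)| + Real.log 2 + π := by
  have h1 : ‖log (1 - conj a * b)‖ ≤ |(log (1 - conj a * b)).re| + |(log (1 - conj a * b)).im| :=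
    Complex.norm_le_abs_re_add_abs_im _
  rw [Complex.log_re, Complex.log_im] at h1
  have h2 : |(1 - conj a * b).arg| ≤ π := Complex.abs_arg_le_pi _
  have h3 : 1 - ‖a‖ ≤ ‖1 - conj a * b‖ := (re_pos hb).trans (Complex.re_le_norm _)
  have h4 : ‖1 - conj a * b‖ ≤ 2 := by
    have := norm_sub_le 1 (conj a * b)
    rw [norm_one, norm_mul, RCLike.norm_conj] at this
    have h5 : ‖a‖ * ‖b‖ ≤ 1 := mul_le_one₀ ha.le (norm_nonneg _) hb
    linarith
  have h5 : Real.log (1 - ‖a‖) ≤ Real.log ‖1 - conj a * b‖ :=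
    Real.log_le_log (by linarith) h3
  have h6 : Real.log ‖1 - conj a * b‖ ≤ Real.log 2 := Real.log_le_log (by linarith) h4
  have h7 : |Real.log ‖1 - conj a * b‖| ≤ |Real.log (1 - ‖a‖)| + Real.log 2 := by
    have := Real.log_nonneg (show (1 : ℝ) ≤ 2 by norm_num)
    rw [abs_le]
    constructor
    · have := neg_abs_le (Real.log (1 - ‖a‖))
      linarith
    · have := abs_nonneg (Real.log (1 - ‖a‖))
      linarith
  linarith

lemma log_self {a : ℂ} (ha : ‖a‖ < 1) : (log (1 - conj a * a)).re = Real.log (1 - ‖a‖ ^ 2) := by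
  rw [Complex.log_re]
  congr 1
  have h : 1 - conj a * a = ((1 - ‖a‖ ^ 2 : ℝ) : ℂ) := by
    rw [mul_comm, Complex.mul_conj, Complex.normSq_eq_norm_sq]
    push_cast
    ring
  rw [h, Complex.norm_real, Real.norm_eq_abs, abs_of_pos]
  have := norm_nonneg a
  nlinarith

lemma norm_outer {F : ℂ → ℂ} {c : ℂ} {k : ℂ → ℝ} (hc : ‖c‖ = 1) (hk : CircleIntegrable k 0 1)
    (hF : ∀ z ∈ ball (0 : ℂ) 1,
      F z = c * exp (Real.circleAverage (fun ζ => herglotzRieszKernel 0 z ζ • (k ζ : ℂ)) 0 1))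
    {z : ℂ} (hz : ‖z‖ < 1) : ‖F z‖ = Real.exp ((2 * π)⁻¹ * ∫ t in (0 : ℝ)..2 * π,
      poissonKernel 0 z (circleMap 0 1 t) * k (circleMap 0 1 t)) := by
  have hzb : z ∈ ball (0 : ℂ) 1 := by simpa using hz
  rw [hF z hzb, norm_mul, hc, one_mul, Complex.norm_exp,
    re_circleAverage_herglotzRieszKernel_smul hk hzb, ← poissonKernel_eq_re_herglotzRieszKernel,
    Real.circleAverage_def]
  rfl

lemma maps_ball {θ : ℂ → ℂ} (hθ : IsInner θ) (hnc : ¬ ∃ c, ∀ z ∈ ball (0 : ℂ) 1, θ z = c) :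
    MapsTo θ (ball (0 : ℂ) 1) (ball (0 : ℂ) 1) := by
  obtain ⟨M, hM⟩ := hθ.bdd
  have h1 : ∀ z : ℂ, ‖z‖ < 1 → ‖θ z‖ ≤ 1 := fun z hz => norm_le_one hθ.diff hM hθ.rad hz
  intro z hz
  have hz' : ‖z‖ < 1 := by simpa using hz
  rw [mem_ball_zero_iff]
  refine lt_of_le_of_ne (h1 z hz') fun h => hnc ⟨θ z, ?_⟩
  have hmax : IsMaxOn (norm ∘ θ) (ball 0 1) z := fun w hw => by
    show ‖θ w‖ ≤ ‖θ z‖
    rw [h]
    exact h1 w (by simpa using hw)
  exact Complex.eqOn_of_isPreconnected_of_isMaxOn_norm (convex_ball (0:ℂ) 1).isPreconnected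
      isOpen_ball hθ.diff hz hmax

theorem main_ineq {θ : ℂ → ℂ} (hθ : IsInner θ) (hnc : ¬ ∃ c, ∀ z ∈ ball (0 : ℂ) 1, θ z = c)
    {J S F : ℂ → ℂ} (hJ : IsInner J) (hS : IsInner S) (hS0 : ∀ z ∈ ball (0 : ℂ) 1, S z ≠ 0)
    (hF : IsOuter F) (hfac : ∀ z ∈ ball (0 : ℂ) 1, deriv θ z = J z / S z * F z) {z : ℂ}
    (hz : ‖z‖ < 1) :
    ‖J z‖ * (1 - ‖θ z‖ ^ 2) ≤ ‖deriv θ z‖ * (1 - ‖z‖ ^ 2) := by
  classical
  have hm := maps_ball hθ hnc
  have hmn : ∀ x : ℂ, ‖x‖ < 1 → ‖θ x‖ < 1 := fun x hx => by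
    simpa using hm (by simpa using hx)
  have hJ1 : ∀ w : ℂ, ‖w‖ < 1 → ‖J w‖ ≤ 1 := fun w hw => by
    obtain ⟨M, hM⟩ := hJ.bdd
    exact norm_le_one hJ.diff hM hJ.rad hw
  have hS1 : ∀ w : ℂ, ‖w‖ < 1 → ‖S w‖ ≤ 1 := fun w hw => by
    obtain ⟨M, hM⟩ := hS.bdd
    exact norm_le_one hS.diff hM hS.rad hw
  obtain ⟨c0, k, hc0, hk, hFk⟩ := hF
  have ha := hmn z hz
  set a := θ z with hadef
  choose! c hc1 using fun (t : ℝ) (h : ∃ c : ℂ, ‖c‖ = 1 ∧
    Tendsto (fun r : ℝ => θ (circleMap 0 r t)) (𝓝[<] 1) (𝓝 c)) => h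
  have hcae : ∀ᵐ t : ℝ, ‖c t‖ = 1 ∧ Tendsto (fun r : ℝ => θ (circleMap 0 r t)) (𝓝[<] 1)
      (𝓝 (c t)) := hθ.rad.mono fun t ht => hc1 t ht
  have hA : 0 < 1 - ‖a‖ ^ 2 := by have := norm_nonneg a; nlinarith
  have hB : 0 < 1 - ‖z‖ ^ 2 := by have := norm_nonneg z; nlinarith
  -- the pointwise inequality
  have hpt : ∀ᵐ t : ℝ, (1 - ‖z‖ ^ 2) * ‖1 - conj a * c t‖ ^ 2 ≤
      (1 - ‖a‖ ^ 2) * (Real.exp (k (circleMap 0 1 t)) * ‖1 - conj z * circleMap 0 1 t‖ ^ 2) := by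
    filter_upwards [hcae, hS.rad, fatou_L1 hk] with t h1 h2 h3
    obtain ⟨s, hs1, hs2⟩ := h2
    have hlim : Tendsto (fun r : ℝ => ‖F (circleMap 0 r t)‖ / ‖S (circleMap 0 r t)‖) (𝓝[<] 1)
        (𝓝 (Real.exp (k (circleMap 0 1 t)))) := by
      have h4 : Tendsto (fun r : ℝ => ‖F (circleMap 0 r t)‖) (𝓝[<] 1)
          (𝓝 (Real.exp (k (circleMap 0 1 t)))) := by
        refine ((Real.continuous_exp.tendsto _).comp h3).congr' ?_
        filter_upwards [Ioo_mem_nhdsLT (a := (0 : ℝ)) one_pos] with r hr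
        rw [norm_outer hc0 hk hFk]
        · rfl
        · rw [norm_circleMap_zero, abs_of_pos hr.1]; exact hr.2
      have h5 := h4.div hs2.norm (by rw [hs1]; exact one_ne_zero)
      rwa [hs1, div_one] at h5
    have hbd : ∀ δ : ℝ, 0 < δ → (1 - ‖z‖ ^ 2) * ‖1 - conj a * c t‖ ^ 2 ≤
        (1 - ‖a‖ ^ 2) * ((Real.exp (k (circleMap 0 1 t)) + δ) *
          ‖1 - conj z * circleMap 0 1 t‖ ^ 2) := by
      intro δ hδ
      apply bdry_ineq hθ.diff hm h1.1 h1.2 _ hz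
      filter_upwards [hlim.eventually_lt_const (lt_add_of_pos_right _ hδ),
        Ioo_mem_nhdsLT (a := (0 : ℝ)) one_pos] with r hr hr2
      have hwn : ‖circleMap 0 r t‖ < 1 := by
        rw [norm_circleMap_zero, abs_of_pos hr2.1]; exact hr2.2
      have hwb : circleMap 0 r t ∈ ball (0 : ℂ) 1 := by simpa using hwn
      refine le_trans ?_ hr.le
      rw [hfac _ hwb, norm_mul, norm_div]
      have hSp : 0 < ‖S (circleMap 0 r t)‖ := norm_pos_iff.2 (hS0 _ hwb)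
      rw [div_mul_eq_mul_div]
      apply div_le_div_of_nonneg_right _ hSp.le
      exact mul_le_of_le_one_left (norm_nonneg _) (hJ1 _ hwn)
    have hlim2 : Tendsto (fun δ : ℝ => (1 - ‖a‖ ^ 2) * ((Real.exp (k (circleMap 0 1 t)) + δ) *
          ‖1 - conj z * circleMap 0 1 t‖ ^ 2)) (𝓝[>] 0) (𝓝 ((1 - ‖a‖ ^ 2) *
          ((Real.exp (k (circleMap 0 1 t)) + 0) * ‖1 - conj z * circleMap 0 1 t‖ ^ 2))) := by
      have : Continuous fun δ : ℝ => (1 - ‖a‖ ^ 2) * ((Real.exp (k (circleMap 0 1 t)) + δ) *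
          ‖1 - conj z * circleMap 0 1 t‖ ^ 2) := by fun_prop
      exact (this.tendsto 0).mono_left nhdsWithin_le_nhds
    rw [add_zero] at hlim2
    refine ge_of_tendsto hlim2 ?_
    filter_upwards [self_mem_nhdsWithin] with δ hδ
    exact hbd δ hδ
  -- the auxiliary function
  set g : ℂ → ℂ := fun w => 2 * (log (1 - conj a * θ w) - log (1 - conj z * w)) with hg
  have hgd : DifferentiableOn ℂ g (ball 0 1) := by
    have e1 : DifferentiableOn ℂ (fun w => log (1 - conj a * θ w)) (ball 0 1) := by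
      apply DifferentiableOn.clog
      · exact (hθ.diff.const_mul _).const_sub _
      · intro w hw
        exact slit ha (hmn w (by simpa using hw)).le
    have e2 : DifferentiableOn ℂ (fun w : ℂ => log (1 - conj z * w)) (ball 0 1) := by
      apply DifferentiableOn.clog
      · fun_prop
      · intro w hw
        exact slit hz (by simpa using (mem_ball.1 hw).le)
    exact (e1.sub e2).const_mul _
  set M : ℝ := 2 * ((|Real.log (1 - ‖a‖)| + Real.log 2 + π) + (|Real.log (1 - ‖z‖)| + Real.log 2 + π))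
    with hM
  have hgb : ∀ w ∈ ball (0 : ℂ) 1, ‖g w‖ ≤ M := by
    intro w hw
    have hw1 : ‖w‖ < 1 := by simpa using hw
    simp only [hg]
    rw [norm_mul, Complex.norm_ofNat, hM]
    apply mul_le_mul_of_nonneg_left _ (by norm_num)
    exact (norm_sub_le _ _).trans (add_le_add (log_bd ha (hmn w hw1).le) (log_bd hz hw1.le))
  set gs : ℝ → ℂ := fun t => 2 * (log (1 - conj a * c t) - log (1 - conj z * circleMap 0 1 t)) with hgs
  have hglim : ∀ᵐ t : ℝ, Tendsto (fun r : ℝ => g (circleMap 0 r t)) (𝓝[<] 1) (𝓝 (gs t)) := by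
    filter_upwards [hcae] with t ht
    have e1 : Tendsto (fun r : ℝ => log (1 - conj a * θ (circleMap 0 r t))) (𝓝[<] 1)
        (𝓝 (log (1 - conj a * c t))) :=
      (tendsto_const_nhds.sub (ht.2.const_mul _)).clog (slit ha ht.1.le)
    have hcm : Tendsto (fun r : ℝ => circleMap 0 r t) (𝓝[<] 1) (𝓝 (circleMap 0 1 t)) := by
      have : Continuous fun R : ℝ => circleMap 0 R t := by unfold circleMap; fun_prop
      exact (this.tendsto 1).mono_left nhdsWithin_le_nhds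
    have e2 : Tendsto (fun r : ℝ => log (1 - conj z * circleMap 0 r t)) (𝓝[<] 1)
        (𝓝 (log (1 - conj z * circleMap 0 1 t))) :=
      (tendsto_const_nhds.sub (hcm.const_mul _)).clog (slit hz (circ_norm t).le)
    exact (e1.sub e2).const_mul _
  have hrep := poisson_rep hgd hgb hglim hz
  have hint := pk_smul_int hgd hgb hglim hz
  have hre : (g z).re = (2 * π)⁻¹ * ∫ t in (0 : ℝ)..2 * π,
      poissonKernel 0 z (circleMap 0 1 t) * (gs t).re := by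
    rw [hrep, Complex.smul_re, smul_eq_mul]
    congr 1
    have h := intervalIntegral.intervalIntegral_re (𝕜 := ℂ) hint
    have h2 : ∫ t in (0 : ℝ)..2 * π, poissonKernel 0 z (circleMap 0 1 t) * (gs t).re =
        ∫ t in (0 : ℝ)..2 * π, RCLike.re (poissonKernel 0 z (circleMap 0 1 t) • gs t) := by
      apply intervalIntegral.integral_congr
      intro t _
      simp
    rw [h2, h]
    rfl
  have hgz : (g z).re = 2 * (Real.log (1 - ‖a‖ ^ 2) - Real.log (1 - ‖z‖ ^ 2)) := by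
    simp only [hg]
    have e : (2 * (log (1 - conj a * θ z) - log (1 - conj z * z)) : ℂ).re =
        2 * ((log (1 - conj a * θ z)).re - (log (1 - conj z * z)).re) := by
      simp
    rw [e, ← hadef, log_self ha, log_self hz]
  have hae : ∀ᵐ t : ℝ, Real.log (1 - ‖z‖ ^ 2) - Real.log (1 - ‖a‖ ^ 2) + (gs t).re ≤
      k (circleMap 0 1 t) := by
    filter_upwards [hpt, hcae] with t h1 h2
    have hX : 0 < ‖1 - conj a * c t‖ := norm_pos_iff.2 (one_sub_ne' ha h2.1.le)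
    have hY : 0 < ‖1 - conj z * circleMap 0 1 t‖ := norm_pos_iff.2 (one_sub_ne' hz (circ_norm t).le)
    have h3 := Real.log_le_log (by positivity) h1
    rw [Real.log_mul hB.ne' (by positivity), Real.log_mul hA.ne' (by positivity),
      Real.log_mul (by positivity) (by positivity), Real.log_exp, Real.log_pow, Real.log_pow] at h3
    have e : (gs t).re = 2 * (Real.log ‖1 - conj a * c t‖ -
        Real.log ‖1 - conj z * circleMap 0 1 t‖) := by
      simp [hgs, Complex.log_re]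
    rw [e]
    push_cast at h3
    linarith
  have hfin : Real.log (1 - ‖z‖ ^ 2) - Real.log (1 - ‖a‖ ^ 2) + (g z).re ≤
      (2 * π)⁻¹ * ∫ t in (0 : ℝ)..2 * π,
        poissonKernel 0 z (circleMap 0 1 t) * k (circleMap 0 1 t) := by
    set A0 : ℝ := Real.log (1 - ‖z‖ ^ 2) - Real.log (1 - ‖a‖ ^ 2) with hA0
    have hreint : IntervalIntegrable (fun t : ℝ => poissonKernel 0 z (circleMap 0 1 t) * (gs t).re)
        volume 0 (2 * π) := by
      rw [intervalIntegrable_iff] at hint ⊢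
      have := hint.re
      refine this.congr (Eventually.of_forall fun t => ?_)
      simp
    have hcint : IntervalIntegrable (fun t : ℝ => poissonKernel 0 z (circleMap 0 1 t) * A0)
        volume 0 (2 * π) := ((pk_cont hz).mul continuous_const).intervalIntegrable _ _
    have hkint : IntervalIntegrable (fun t : ℝ => poissonKernel 0 z (circleMap 0 1 t) *
        k (circleMap 0 1 t)) volume 0 (2 * π) :=
      IntervalIntegrable.continuousOn_mul hk (pk_cont hz).continuousOn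
    have h1 : ∫ t in (0 : ℝ)..2 * π, (poissonKernel 0 z (circleMap 0 1 t) * A0 +
        poissonKernel 0 z (circleMap 0 1 t) * (gs t).re) ≤ ∫ t in (0 : ℝ)..2 * π,
        poissonKernel 0 z (circleMap 0 1 t) * k (circleMap 0 1 t) := by
      apply intervalIntegral.integral_mono_ae (by positivity) (hcint.add hreint) hkint
      filter_upwards [hae] with t ht
      rw [← mul_add]
      exact mul_le_mul_of_nonneg_left ht (pk_pos hz t).le
    rw [intervalIntegral.integral_add hcint hreint, intervalIntegral.integral_mul_const,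
      pk_int hz] at h1
    rw [hre]
    have h2 : (2 * π)⁻¹ * (2 * π * A0 + ∫ t in (0 : ℝ)..2 * π,
        poissonKernel 0 z (circleMap 0 1 t) * (gs t).re) = A0 + (2 * π)⁻¹ * ∫ t in (0 : ℝ)..2 * π,
        poissonKernel 0 z (circleMap 0 1 t) * (gs t).re := by
      field_simp
    rw [← h2]
    exact mul_le_mul_of_nonneg_left h1 (by positivity)
  have hzb : z ∈ ball (0 : ℂ) 1 := by simpa using hz
  have hFz : 1 - ‖a‖ ^ 2 ≤ ‖F z‖ * (1 - ‖z‖ ^ 2) := by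
    rw [norm_outer hc0 hk hFk hz, ← div_le_iff₀ hB]
    rw [hgz] at hfin
    have h1 : Real.log ((1 - ‖a‖ ^ 2) / (1 - ‖z‖ ^ 2)) ≤ (2 * π)⁻¹ * ∫ t in (0 : ℝ)..2 * π,
        poissonKernel 0 z (circleMap 0 1 t) * k (circleMap 0 1 t) := by
      rw [Real.log_div hA.ne' hB.ne']
      linarith
    exact (Real.log_le_iff_le_exp (by positivity)).1 h1
  rw [hfac z hzb, norm_mul, norm_div]
  have hSp : 0 < ‖S z‖ := norm_pos_iff.2 (hS0 _ hzb)
  have h5 : ‖J z‖ ≤ ‖J z‖ / ‖S z‖ := by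
    rw [le_div_iff₀ hSp]
    exact mul_le_of_le_one_right (norm_nonneg _) (hS1 z hz)
  calc ‖J z‖ * (1 - ‖a‖ ^ 2) ≤ ‖J z‖ * (‖F z‖ * (1 - ‖z‖ ^ 2)) :=
        mul_le_mul_of_nonneg_left hFz (norm_nonneg _)
    _ ≤ ‖J z‖ / ‖S z‖ * (‖F z‖ * (1 - ‖z‖ ^ 2)) :=
        mul_le_mul_of_nonneg_right h5 (by positivity)
    _ = _ := by ring

end Pool.Agent.Q76.IS
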