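import Pool.Agent.Q76.IS.Ineq
import Pool.Agent.Q76.IS.Disc

set_option autoImplicit false

/-! The boundary spectrum of an inner function is contained in the boundary spectrum of the
inner factor of its derivative. -/

open Complex Metric Set Filter Topology MeasureTheory
open scoped ComplexConjugate Real NNReal

namespace Pool.Agent.Q76.IS

/-- a continuation of an inner function has modulus one on the circle -/
lemma cont_norm {J : ℂ → ℂ} (hJ : IsInner J) {ζ : ℂ} (hζ : ‖ζ‖ = 1) {ε : ℝ} (hε : 0 < ε)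
    {G : ℂ → ℂ} (hG : DifferentiableOn ℂ G (ball ζ ε))
    (hGJ : ∀ z ∈ ball ζ ε ∩ ball (0 : ℂ) 1, G z = J z) : ‖G ζ‖ = 1 := by
  obtain ⟨t0, ht0⟩ : ∃ t0 : ℝ, circleMap 0 1 t0 = ζ := by
    refine ⟨ζ.arg, ?_⟩
    have h := Complex.norm_mul_exp_arg_mul_I ζ
    rw [hζ] at h
    simpa [circleMap] using h
  have hcm : Continuous fun t : ℝ => circleMap 0 1 t := continuous_circleMap 0 1
  have hGc : ContinuousAt (fun t : ℝ => ‖G (circleMap 0 1 t)‖) t0 := by
    apply ContinuousAt.norm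
    apply ContinuousAt.comp (g := G) (f := fun t : ℝ => circleMap 0 1 t)
    · rw [ht0]
      exact (hG.differentiableAt (ball_mem_nhds ζ hε)).continuousAt
    · exact hcm.continuousAt
  have hdense : Dense {t : ℝ | ∃ c : ℂ, ‖c‖ = 1 ∧
      Tendsto (fun r : ℝ => J (circleMap 0 r t)) (𝓝[<] 1) (𝓝 c)} := Measure.dense_of_ae hJ.rad
  have hfreq : ∃ᶠ t in 𝓝 t0, ∃ c : ℂ, ‖c‖ = 1 ∧
      Tendsto (fun r : ℝ => J (circleMap 0 r t)) (𝓝[<] 1) (𝓝 c) :=
    mem_closure_iff_frequently.1 (hdense t0)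
  have hnear : ∀ᶠ t in 𝓝 t0, circleMap 0 1 t ∈ ball ζ ε := by
    have := hcm.tendsto t0
    rw [ht0] at this
    exact this.eventually (ball_mem_nhds ζ hε)
  have hfreq2 : ∃ᶠ t in 𝓝 t0, ‖G (circleMap 0 1 t)‖ = 1 := by
    refine (hfreq.and_eventually hnear).mono ?_
    rintro t ⟨⟨c, hc1, hc2⟩, ht⟩
    have hcr : Tendsto (fun r : ℝ => circleMap 0 r t) (𝓝[<] 1) (𝓝 (circleMap 0 1 t)) := by
      have : Continuous fun R : ℝ => circleMap 0 R t := by unfold circleMap; fun_prop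
      exact (this.tendsto 1).mono_left nhdsWithin_le_nhds
    have hGt : Tendsto (fun r : ℝ => G (circleMap 0 r t)) (𝓝[<] 1) (𝓝 (G (circleMap 0 1 t))) :=
      ((hG.differentiableAt (isOpen_ball.mem_nhds ht)).continuousAt.tendsto).comp hcr
    have heq : ∀ᶠ r : ℝ in 𝓝[<] 1, J (circleMap 0 r t) = G (circleMap 0 r t) := by
      filter_upwards [hcr.eventually (isOpen_ball.mem_nhds ht),
        Ioo_mem_nhdsLT (a := (0 : ℝ)) one_pos] with r hr hr2
      refine (hGJ _ ⟨hr, ?_⟩).symm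
      rw [mem_ball_zero_iff, norm_circleMap_zero, abs_of_pos hr2.1]
      exact hr2.2
    have h1 := tendsto_nhds_unique (hc2.congr' heq) hGt
    rw [← h1, hc1]
  by_contra hne
  rw [← ht0] at hne
  have : ∀ᶠ t in 𝓝 t0, ‖G (circleMap 0 1 t)‖ ≠ 1 := hGc.eventually_ne hne
  obtain ⟨t, h1, h2⟩ := (hfreq2.and_eventually this).exists
  exact h2 h1

theorem main_thm {θ : ℂ → ℂ} (hθ : IsInner θ) (hnc : ¬ ∃ c, ∀ z ∈ ball (0 : ℂ) 1, θ z = c)
    {J S F : ℂ → ℂ} (hJ : IsInner J) (hS : IsInner S) (hS0 : ∀ z ∈ ball (0 : ℂ) 1, S z ≠ 0)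
    (hF : IsOuter F) (hfac : ∀ z ∈ ball (0 : ℂ) 1, deriv θ z = J z / S z * F z) :
    sigma θ ⊆ sigma J := by
  rintro ζ ⟨hζ, hext⟩
  refine ⟨hζ, fun hJe => hext ?_⟩
  obtain ⟨ε, hε, G, hG, hGJ⟩ := hJe
  have hm := maps_ball hθ hnc
  have hmn : ∀ x : ℂ, ‖x‖ < 1 → ‖θ x‖ < 1 := fun x hx => by
    simpa using hm (by simpa using hx)
  have hG1 := cont_norm hJ hζ hε hG hGJ
  -- a neighbourhood where the inner factor is almost unimodular
  obtain ⟨ρ, hρ, hρJ⟩ : ∃ ρ : ℝ, 0 < ρ ∧ ∀ z ∈ ball ζ ρ ∩ ball (0 : ℂ) 1, 1 - 1 / 50 ≤ ‖J z‖ := by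
    have hc : ContinuousAt (fun z => ‖G z‖) ζ :=
      (hG.differentiableAt (ball_mem_nhds ζ hε)).continuousAt.norm
    have h1 : ∀ᶠ z in 𝓝 ζ, 1 - 1 / 50 < ‖G z‖ := by
      apply hc.tendsto.eventually_const_lt
      rw [hG1]
      norm_num
    have h2 := h1.and (ball_mem_nhds ζ hε)
    obtain ⟨ρ, hρ, h3⟩ := Metric.eventually_nhds_iff_ball.1 h2
    refine ⟨ρ, hρ, fun z hz => ?_⟩
    obtain ⟨h4, h5⟩ := h3 z hz.1
    rw [← hGJ z ⟨h5, hz.2⟩]
    exact h4.le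
  set A : Set ℂ := {η | ‖η‖ = 1 ∧ ‖η - ζ‖ < ρ / 2} with hA
  set Q : ℝ := max 1 (4 / ρ) with hQ
  have hQ1 : 1 ≤ Q := le_max_left _ _
  have hD : ∀ η ∈ A, ∀ q : ℝ, Q ≤ q → (1 - 1 / 50) * (1 - ‖θ (zq η q)‖ ^ 2) ≤
      ‖deriv θ (zq η q)‖ * (1 - ‖zq η q‖ ^ 2) := by
    intro η hη q hq
    have hq1 := hQ1.trans hq
    have hz := zq_lt hη.1 hq1
    have h1 := main_ineq hθ hnc hJ hS hS0 hF hfac hz
    have h2 : ‖zq η q - η‖ = 2 / (q + 1) := by
      have e : zq η q - η = ((-(2 / (q + 1)) : ℝ) : ℂ) * η := by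
        unfold zq
        have h3 : (q : ℂ) + 1 ≠ 0 := by exact_mod_cast (by linarith : q + 1 ≠ 0)
        push_cast
        field_simp
        ring
      rw [e, norm_mul, hη.1, mul_one, Complex.norm_real, norm_neg, Real.norm_eq_abs,
        abs_of_pos (by positivity)]
    have h4 : 2 / (q + 1) < ρ / 2 := by
      have h5 : 4 / ρ ≤ q := (le_max_right _ _).trans hq
      rw [div_le_iff₀ hρ] at h5
      rw [div_lt_div_iff₀ (by linarith) (by norm_num)]
      nlinarith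
    have h6 : zq η q ∈ ball ζ ρ ∩ ball (0 : ℂ) 1 := by
      refine ⟨?_, by simpa using hz⟩
      rw [mem_ball, dist_eq_norm]
      have h7 : zq η q - ζ = (zq η q - η) + (η - ζ) := by ring
      rw [h7]
      have h8 := norm_add_le (zq η q - η) (η - ζ)
      have h9 := hη.2
      linarith
    have h10 := hρJ _ h6
    have h11 : 0 ≤ 1 - ‖θ (zq η q)‖ ^ 2 := by
      have := hmn _ hz
      have := norm_nonneg (θ (zq η q))
      nlinarith
    exact (mul_le_mul_of_nonneg_right h10 h11).trans h1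
  have hgrow := grow hθ.diff hm hQ1 (A := A) (fun η hη => hη.1) hD
  apply extends_of_unif hθ.diff (fun z hz => (hmn z (by simpa using hz)).le) hζ
    (ρ := ρ / 4) (by positivity)
  intro e he
  obtain ⟨Q', hQ'1, hQ'⟩ := hgrow (1 / e)
  refine ⟨1 / Q', by positivity, fun z hz hzζ hzn => ?_⟩
  have hz1 : ‖z‖ < 1 := by simpa using hz
  have hQ'2 : 1 / Q' ≤ 1 := by
    rw [div_le_one (by linarith)]
    exact hQ'1
  have hz0 : 0 < ‖z‖ := by linarith
  set η : ℂ := z / (‖z‖ : ℂ) with hη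
  have hηn : ‖η‖ = 1 := by
    rw [hη, norm_div, Complex.norm_real, Real.norm_eq_abs, abs_of_pos hz0, div_self hz0.ne']
  set q : ℝ := (1 + ‖z‖) / (1 - ‖z‖) with hq
  have h1z : 0 < 1 - ‖z‖ := by linarith
  have hzq : zq η q = z := by
    unfold zq
    have e1 : (q - 1) / (q + 1) = ‖z‖ := by
      rw [hq]
      field_simp
      ring
    rw [e1, hη]
    have : (‖z‖ : ℂ) ≠ 0 := by exact_mod_cast hz0.ne'
    field_simp
  have hηA : η ∈ A := by
    refine ⟨hηn, ?_⟩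
    have h1 : ‖η - z‖ = 1 - ‖z‖ := by
      have e1 : η - z = ((1 - ‖z‖ : ℝ) : ℂ) * η := by
        rw [hη]
        have : (‖z‖ : ℂ) ≠ 0 := by exact_mod_cast hz0.ne'
        push_cast
        field_simp
      rw [e1, norm_mul, hηn, mul_one, Complex.norm_real, Real.norm_eq_abs, abs_of_pos h1z]
    have h2 : 1 - ‖z‖ ≤ ‖z - ζ‖ := by
      have := norm_sub_norm_le ζ z
      rw [hζ, norm_sub_rev] at this
      exact this
    have h3 : η - ζ = (η - z) + (z - ζ) := by ring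
    rw [h3]
    have h4 := norm_add_le (η - z) (z - ζ)
    linarith
  have hqQ : Q' ≤ q := by
    rw [hq, le_div_iff₀ h1z]
    have h1 : 1 - ‖z‖ < 1 / Q' := by linarith
    rw [lt_div_iff₀ (by linarith)] at h1
    nlinarith
  have h1 := hQ' η hηA q hqQ
  rw [hzq] at h1
  unfold cc at h1
  have h2 : 0 < 1 - ‖θ z‖ ^ 2 := by
    have := hmn z hz1
    have := norm_nonneg (θ z)
    nlinarith
  rw [one_div] at h1
  have h3 : 1 - ‖θ z‖ ^ 2 ≤ e := (inv_le_inv₀ he h2).1 h1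
  have h4 := hmn z hz1
  have h5 := norm_nonneg (θ z)
  nlinarith

end Pool.Agent.Q76.IS
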