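import Mathlib

set_option autoImplicit false

/-! Poisson representation of bounded analytic functions by their radial limits. -/

open Complex Metric Set Filter Topology MeasureTheory
open scoped ComplexConjugate Real

namespace Pool.Agent.Q76.IS

lemma circ_norm (t : ℝ) : ‖circleMap 0 1 t‖ = 1 := by simp [circleMap]

lemma circ_r (r t : ℝ) : circleMap 0 r t = (r : ℂ) * circleMap 0 1 t := by simp [circleMap]

lemma pk_eq {z : ℂ} (t : ℝ) : poissonKernel 0 z (circleMap 0 1 t) =
    (1 - ‖z‖ ^ 2) / ‖circleMap 0 1 t - z‖ ^ 2 := by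
  rw [poissonKernel_def, sub_zero, sub_zero, circ_norm, one_pow]

lemma pk_pos {z : ℂ} (hz : ‖z‖ < 1) (t : ℝ) : 0 < poissonKernel 0 z (circleMap 0 1 t) := by
  rw [pk_eq]
  have h1 : circleMap 0 1 t - z ≠ 0 := by
    intro h
    have := circ_norm t
    rw [sub_eq_zero.1 h] at this
    linarith
  have h2 : 0 < ‖circleMap 0 1 t - z‖ := norm_pos_iff.2 h1
  have h3 : 0 < 1 - ‖z‖ ^ 2 := by have := norm_nonneg z; nlinarith
  positivity

lemma pk_cont {z : ℂ} (hz : ‖z‖ < 1) :
    Continuous fun t : ℝ => poissonKernel 0 z (circleMap 0 1 t) := by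
  have : (fun t : ℝ => poissonKernel 0 z (circleMap 0 1 t)) =
      fun t : ℝ => (1 - ‖z‖ ^ 2) / ‖circleMap 0 1 t - z‖ ^ 2 := by
    funext t; exact pk_eq t
  rw [this]
  apply Continuous.div continuous_const (((continuous_circleMap 0 1).sub continuous_const).norm.pow 2)
  intro t h
  have h1 : circleMap 0 1 t - z = 0 := by simpa using h
  have := circ_norm t
  rw [sub_eq_zero.1 h1] at this
  linarith

lemma poisson_rep {f : ℂ → ℂ} (hf : DifferentiableOn ℂ f (ball 0 1)) {M : ℝ}
    (hM : ∀ z ∈ ball (0 : ℂ) 1, ‖f z‖ ≤ M) {c : ℝ → ℂ}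
    (hc : ∀ᵐ t : ℝ, Tendsto (fun r : ℝ => f (circleMap 0 r t)) (𝓝[<] 1) (𝓝 (c t)))
    {z : ℂ} (hz : ‖z‖ < 1) :
    f z = (2 * π)⁻¹ • ∫ t in (0 : ℝ)..2 * π, poissonKernel 0 z (circleMap 0 1 t) • c t := by
  have hM0 : 0 ≤ M := (norm_nonneg _).trans (hM 0 (by simp))
  set ρ : ℝ := (1 + ‖z‖) / 2 with hρ
  have hρ1 : ρ < 1 := by rw [hρ]; linarith
  have hρz : ‖z‖ < ρ := by rw [hρ]; linarith
  have hρ0 : 0 < ρ := lt_of_le_of_lt (norm_nonneg z) hρz
  have hev : ∀ᶠ R : ℝ in 𝓝[<] 1, R ∈ Ioo ρ 1 := Ioo_mem_nhdsLT hρ1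
  have hlim : Tendsto (fun R : ℝ => ∫ t in (0 : ℝ)..2 * π,
      poissonKernel 0 z (circleMap 0 R t) • f (circleMap 0 R t)) (𝓝[<] 1)
      (𝓝 (∫ t in (0 : ℝ)..2 * π, poissonKernel 0 z (circleMap 0 1 t) • c t)) := by
    apply intervalIntegral.tendsto_integral_filter_of_dominated_convergence
      (bound := fun _ => (1 / (ρ - ‖z‖) ^ 2) * M)
    · filter_upwards [hev] with R hR
      have hc1 : Continuous fun t : ℝ => poissonKernel 0 z (circleMap 0 R t) := by
        have : (fun t : ℝ => poissonKernel 0 z (circleMap 0 R t)) =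
            fun t : ℝ => (R ^ 2 - ‖z‖ ^ 2) / ‖circleMap 0 R t - z‖ ^ 2 := by
          funext t
          rw [poissonKernel_def, sub_zero, sub_zero, norm_circleMap_zero, sq_abs]
        rw [this]
        apply Continuous.div continuous_const
          (((continuous_circleMap 0 R).sub continuous_const).norm.pow 2)
        intro t h
        have h1 : circleMap 0 R t - z = 0 := by simpa using h
        have := norm_circleMap_zero R t
        rw [sub_eq_zero.1 h1, abs_of_pos (hρ0.trans hR.1)] at this
        linarith [hR.1]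
      have hc2 : Continuous fun t : ℝ => f (circleMap 0 R t) := by
        have h1 : ContinuousOn f (ball 0 1) := hf.continuousOn
        apply h1.comp_continuous (continuous_circleMap 0 R)
        intro t
        rw [mem_ball_zero_iff, norm_circleMap_zero, abs_of_pos (hρ0.trans hR.1)]
        exact hR.2
      exact (hc1.smul hc2).aestronglyMeasurable
    · filter_upwards [hev] with R hR
      refine Eventually.of_forall fun t _ => ?_
      have hRn : ‖circleMap 0 R t‖ = R := by
        rw [norm_circleMap_zero, abs_of_pos (hρ0.trans hR.1)]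
      rw [norm_smul]
      apply mul_le_mul
      · rw [poissonKernel_def, sub_zero, sub_zero, hRn, Real.norm_eq_abs, abs_of_nonneg]
        · apply div_le_div₀ zero_le_one
          · have := norm_nonneg z
            nlinarith [hR.1, hR.2]
          · have : 0 < ρ - ‖z‖ := by linarith
            positivity
          · apply pow_le_pow_left₀ (by linarith)
            have := norm_sub_norm_le (circleMap 0 R t) z
            rw [hRn] at this
            linarith [hR.1]
        · apply div_nonneg _ (by positivity)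
          have := norm_nonneg z
          nlinarith [hR.1, hR.2]
      · apply hM
        rw [mem_ball_zero_iff, hRn]
        exact hR.2
      · exact norm_nonneg _
      · positivity
    · exact intervalIntegrable_const
    · filter_upwards [hc] with t ht _
      refine Tendsto.smul ?_ ht
      have h1 : Tendsto (fun R : ℝ => circleMap 0 R t) (𝓝[<] 1) (𝓝 (circleMap 0 1 t)) := by
        have : Continuous fun R : ℝ => circleMap 0 R t := by unfold circleMap; fun_prop
        exact (this.tendsto 1).mono_left nhdsWithin_le_nhds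
      simp only [poissonKernel_def, sub_zero]
      apply Tendsto.div
      · exact (h1.norm.pow 2).sub tendsto_const_nhds
      · exact ((h1.sub tendsto_const_nhds).norm.pow 2)
      · intro h
        have h2 : circleMap 0 1 t - z = 0 := by simpa using h
        have := circ_norm t
        rw [sub_eq_zero.1 h2] at this
        linarith
  have hconst : ∀ᶠ R : ℝ in 𝓝[<] 1, (2 * π) • f z = ∫ t in (0 : ℝ)..2 * π,
      poissonKernel 0 z (circleMap 0 R t) • f (circleMap 0 R t) := by
    filter_upwards [hev] with R hR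
    have hd : DiffContOnCl ℂ f (ball 0 R) := by
      apply DifferentiableOn.diffContOnCl
      rw [closure_ball _ (hρ0.trans hR.1).ne']
      exact hf.mono (closedBall_subset_ball hR.2)
    have h1 := hd.circleAverage_poissonKernel_smul (w := z) (by simpa using hρz.trans hR.1)
    rw [Real.circleAverage_def] at h1
    have h2 : (2 * π) • f z = (2 * π) • ((2 * π)⁻¹ • ∫ θ in (0 : ℝ)..2 * π,
        (poissonKernel 0 z • f) (circleMap 0 R θ)) := by rw [h1]
    rw [h2, smul_smul, mul_inv_cancel₀ (by positivity), one_smul]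
    rfl
  have h3 : Tendsto (fun _ : ℝ => (2 * π) • f z) (𝓝[<] 1)
      (𝓝 (∫ t in (0 : ℝ)..2 * π, poissonKernel 0 z (circleMap 0 1 t) • c t)) :=
    hlim.congr' (hconst.mono fun _ h => h.symm)
  have h4 := tendsto_nhds_unique tendsto_const_nhds h3
  rw [← h4, smul_smul, inv_mul_cancel₀ (by positivity), one_smul]

lemma pk_int {z : ℂ} (hz : ‖z‖ < 1) :
    ∫ t in (0 : ℝ)..2 * π, poissonKernel 0 z (circleMap 0 1 t) = 2 * π := by
  have h := poisson_rep (f := fun _ => (1 : ℂ)) (M := 1) (differentiableOn_const _) (by simp)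
    (c := fun _ => 1) (Eventually.of_forall fun t => tendsto_const_nhds) hz
  have h2 : ∫ t in (0 : ℝ)..2 * π, poissonKernel 0 z (circleMap 0 1 t) • (1 : ℂ) =
      ((∫ t in (0 : ℝ)..2 * π, poissonKernel 0 z (circleMap 0 1 t) : ℝ) : ℂ) := by
    rw [← intervalIntegral.integral_ofReal]
    apply intervalIntegral.integral_congr
    intro t _
    simp
  rw [h2] at h
  have h3 : (1 : ℝ) = (2 * π)⁻¹ * ∫ t in (0 : ℝ)..2 * π, poissonKernel 0 z (circleMap 0 1 t) := by
    have := congrArg Complex.re h
    simpa using this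
  have : (2 * π : ℝ) ≠ 0 := by positivity
  field_simp at h3
  linarith

/-- bounded analytic functions with unimodular radial limits are bounded by one -/
lemma norm_le_one {f : ℂ → ℂ} (hf : DifferentiableOn ℂ f (ball 0 1)) {M : ℝ}
    (hM : ∀ z ∈ ball (0 : ℂ) 1, ‖f z‖ ≤ M)
    (hc : ∀ᵐ t : ℝ, ∃ c : ℂ, ‖c‖ = 1 ∧ Tendsto (fun r : ℝ => f (circleMap 0 r t)) (𝓝[<] 1) (𝓝 c))
    {z : ℂ} (hz : ‖z‖ < 1) : ‖f z‖ ≤ 1 := by
  classical
  choose! c hc1 using fun (t : ℝ) (h : ∃ c : ℂ, ‖c‖ = 1 ∧
    Tendsto (fun r : ℝ => f (circleMap 0 r t)) (𝓝[<] 1) (𝓝 c)) => h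
  have h1 := poisson_rep hf hM (c := c) (hc.mono fun t ht => (hc1 t ht).2) hz
  rw [h1, norm_smul, Real.norm_eq_abs, abs_of_pos (by positivity)]
  have h2 : ‖∫ t in (0 : ℝ)..2 * π, poissonKernel 0 z (circleMap 0 1 t) • c t‖ ≤
      ∫ t in (0 : ℝ)..2 * π, poissonKernel 0 z (circleMap 0 1 t) := by
    apply intervalIntegral.norm_integral_le_of_norm_le (by positivity)
    · filter_upwards [hc] with t ht _
      rw [norm_smul, (hc1 t ht).1, mul_one, Real.norm_eq_abs, abs_of_pos (pk_pos hz t)]
    · exact (pk_cont hz).intervalIntegrable _ _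
  rw [pk_int hz] at h2
  have : (0 : ℝ) < 2 * π := by positivity
  rw [inv_mul_le_iff₀ this]
  linarith

end Pool.Agent.Q76.IS
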